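import Pool.Agent.Work.MP_dfab40_lc.R.D.DefB

/-!
# Module `Chain` (size M): the chain of states at stage `n`

PROOF of `exists_chain`.  `h (n, (i, q)) := if ∃ q' < n, Good n q q' then mu (Good n q ·) else q` is
`Df` (make the `mu` total: `mu (fun q' => Good n q q' ∨ n ≤ q')` and an `ite`), then `exists_rec`
with `A = M`, `g = const q0`.  `Good` is `Dp` by `DefA`, `DefB`.
-/

set_option autoImplicit false

namespace Pool.Agent.Work.MP_dfab40_lc.R

variable {M : Type} [PAm M] [ISig M] {S : Set (Set M)} {A : Type} [Cd M A]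

/-- `q` is valid at stage `n`. -/
def VN (J : JP S) (c : M → M → Prop) (n q : M) : Prop :=
  (∀ v, Mem v (sn q) → NodeOK J c (fs q) v) ∧ ∃ Z, Cl J c q n Z

/-- `q'` is a possible successor of `q` at stage `n`. -/
def Good (J : JP S) (c : M → M → Prop) (n q q' : M) : Prop :=
  q' < n ∧ VN J c n q' ∧ Req q q'

theorem Dp.vn [IS S] (J : JP S) {c : M → M → Prop} (hc : Dp S (fun p : M × M => c p.1 p.2))
    {f g : A → M} (hf : Df S f) (hg : Df S g) : Dp S (fun a => VN J c (f a) (g a)) := by
  have h1 : Dp S (fun a => ∀ v, Mem v (sn (g a)) → NodeOK J c (fs (g a)) v) :=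
    Dp.allMem (f := fun a => sn (g a)) (P := fun a v => NodeOK J c (fs (g a)) v) (Df.sn hg)
      (Dp.nodeOK J hc (f := fun p : A × M => fs (g p.1)) (g := fun p : A × M => p.2)
        (Df.fs (Df.comp (f := g) (g := fun p : A × M => p.1) hg (Df.fst Df.id)))
        (Df.snd Df.id))
  exact h1.and (Dp.exCl J hc hg hf)

theorem Dp.good [IS S] (J : JP S) {c : M → M → Prop} (hc : Dp S (fun p : M × M => c p.1 p.2))
    {f g h : A → M} (hf : Df S f) (hg : Df S g) (hh : Df S h) :
    Dp S (fun a => Good J c (f a) (g a) (h a)) :=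
  (Dp.lt hh hf).and ((Dp.vn J hc hf hh).and (Dp.req hg hh))

/-- `C n i` is the `i`-th state at stage `n`. -/
def IsChain (J : JP S) (c : M → M → Prop) (C : M → M → M) : Prop :=
  Df S (fun p : M × M => C p.1 p.2) ∧ (∀ n, C n 0 = q0) ∧
  ∀ n i, (C n (i + 1) = C n i ∧ ∀ q', ¬ Good J c n (C n i) q') ∨
    (Good J c n (C n i) (C n (i + 1)) ∧ ∀ q', Good J c n (C n i) q' → C n (i + 1) ≤ q')

theorem exists_chain [IS S] (J : JP S) {c : M → M → Prop}
    (hc : Dp S (fun p : M × M => c p.1 p.2)) : ∃ C, IsChain J c C := by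
  classical
  let nx : M → M → M := fun n q =>
    if ∃ q', q' < n ∧ Good J c n q q' then mu (fun q' => Good J c n q q' ∨ n ≤ q') else q
  have hn : Df S (fun a : M × (M × M) => a.1) := Df.fst Df.id
  have hq : Df S (fun a : M × (M × M) => a.2.2) := Df.snd (Df.snd Df.id)
  have h1 : Dp S (fun a : M × (M × M) => ∃ q', q' < a.1 ∧ Good J c a.1 a.2.2 q') := by
    refine Dp.bex (f := fun a : M × (M × M) => a.1) (P := fun a q' => Good J c a.1 a.2.2 q') hn ?_
    exact Dp.good J hc (f := fun p : (M × (M × M)) × M => p.1.1)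
      (g := fun p : (M × (M × M)) × M => p.1.2.2) (h := fun p : (M × (M × M)) × M => p.2)
      (Df.fst (Df.fst Df.id)) (Df.snd (Df.snd (Df.fst Df.id))) (Df.snd Df.id)
  have h2 : Df S (fun a : M × (M × M) => mu (fun q' => Good J c a.1 a.2.2 q' ∨ a.1 ≤ q')) := by
    refine Df.mu (P := fun (a : M × (M × M)) q' => Good J c a.1 a.2.2 q' ∨ a.1 ≤ q') ?_ ?_
    · refine Dp.or ?_ ?_
      · exact Dp.good J hc (f := fun p : (M × (M × M)) × M => p.1.1)
          (g := fun p : (M × (M × M)) × M => p.1.2.2) (h := fun p : (M × (M × M)) × M => p.2)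
          (Df.fst (Df.fst Df.id)) (Df.snd (Df.snd (Df.fst Df.id))) (Df.snd Df.id)
      · exact Dp.le (f := fun p : (M × (M × M)) × M => p.1.1)
          (g := fun p : (M × (M × M)) × M => p.2) (Df.fst (Df.fst Df.id)) (Df.snd Df.id)
    · intro a
      exact ⟨a.1, Or.inr le_rfl⟩
  have hh : Df S (fun a : M × (M × M) => nx a.1 a.2.2) := by
    exact Df.ite h1 h2 hq
  obtain ⟨C, hC, hC0, hCs⟩ := exists_rec (S := S) (A := M) (g := fun _ : M => (q0 : M))
    (h := fun a : M × (M × M) => nx a.1 a.2.2) (Df.const q0) hh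
  refine ⟨C, hC, hC0, ?_⟩
  intro n i
  have e := hCs n i
  simp only at e
  have hP : Dp S (fun q' => Good J c n (C n i) q' ∨ n ≤ q') := by
    refine Dp.or ?_ ?_
    · exact Dp.good J hc (f := fun _ : M => n) (g := fun _ : M => C n i) (h := fun q' : M => q')
        (Df.const _) (Df.const _) Df.id
    · exact Dp.le (f := fun _ : M => n) (g := fun q' : M => q') (Df.const _) Df.id
  by_cases hG : ∃ q', q' < n ∧ Good J c n (C n i) q'
  · right
    have e' : C n (i + 1) = mu (fun q' => Good J c n (C n i) q' ∨ n ≤ q') := by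
      rw [e]
      exact if_pos hG
    obtain ⟨q1, h1n, h1G⟩ := hG
    have hs := mu_spec hP ⟨q1, Or.inl h1G⟩
    have hl : mu (fun q' => Good J c n (C n i) q' ∨ n ≤ q') ≤ q1 := mu_le hP (Or.inl h1G)
    rw [e']
    refine ⟨?_, fun q' hq' => mu_le hP (Or.inl hq')⟩
    rcases hs with hs | hs
    · exact hs
    · exact absurd (lt_of_le_of_lt (le_trans hs hl) h1n) (lt_irrefl _)
  · left
    refine ⟨?_, ?_⟩
    · rw [e]
      exact if_neg hG
    · intro q' hq'
      exact hG ⟨q', hq'.1, hq'⟩

private theorem mem_one {v : M} : Mem v (pow2 (0 : M)) ↔ v = 0 := by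
  constructor
  · intro h
    have h1 := mem_lt h
    rw [pow2_zero] at h1
    have h2 : v ≤ 0 := by
      have h3 : v < 0 + 1 := by rw [zero_add]; exact h1
      exact lt_succ_iff.1 h3
    exact le_antisymm h2 zero_le
  · rintro rfl
    exact ⟨0, 0, pow2_pos 0, by rw [mul_zero, zero_add, add_zero]⟩

private theorem fs_zero' : fs (0 : M) = 0 := le_antisymm (fs_le 0) zero_le

private theorem sn_zero' : sn (0 : M) = 0 := le_antisymm (sn_le 0) zero_le

private theorem nF_zero (j : Bool) : nF j (0 : M) = 0 := by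
  cases j <;> simp [nF, fs_zero', sn_zero']

private theorem nB_zero (j : Bool) : nB j (0 : M) = 0 := by
  cases j <;> simp [nB, fs_zero', sn_zero']

private theorem nD_zero (j : Bool) : nD j (0 : M) = 0 := by
  cases j <;> simp [nD, fs_zero', sn_zero']

private theorem ap_zero' (y : M) : ap (0 : M) y = 0 := by
  unfold ap mu
  rw [dif_neg]
  rintro ⟨x, hx, _⟩
  exact not_mem_zero _ hx

/-- The initial state is valid (`fs q0 = 0`, `sn q0 = 1 = {0}`, all components of the node `0` are
`0`; `Z = 0` has all values `0`). -/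
theorem vn_q0 (J : JP S) (c : M → M → Prop) (n : M) : VN J c n q0 := by
  have e1 : fs (q0 : M) = 0 := fs_pr _ _
  have e2 : sn (q0 : M) = pow2 0 := sn_pr _ _
  refine ⟨?_, 0, ?_, ?_⟩
  · intro v hv j
    rw [e2, mem_one] at hv
    subst hv
    rw [nF_zero, nD_zero]
    refine ⟨fun x hx => absurd hx (not_mem_zero _), fun x hx => absurd hx (not_mem_zero _),
      fun e he => absurd he (not_mem_zero _)⟩
  · intro y _ _
    rw [ap_zero', e2, mem_one]
    refine ⟨rfl, fun j x hx => ?_⟩
    rw [nF_zero] at hx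
    exact absurd hx (not_mem_zero _)
  · rintro v ⟨y, -, -, hv⟩ j G _ _ e he
    rw [ap_zero'] at hv
    subst hv
    rw [nB_zero] at he
    exact absurd he (not_lt.2 zero_le)

theorem chain_vn [IS S] (J : JP S) {c : M → M → Prop} (hc : Dp S (fun p : M × M => c p.1 p.2))
    {C : M → M → M} (hC : IsChain J c C) (n i : M) : VN J c n (C n i) := by
  obtain ⟨h1, h2, h3⟩ := hC
  have hD : Dp S (fun i => VN J c n (C n i)) :=
    Dp.vn J hc (f := fun _ : M => n) (g := fun i : M => C n i) (Df.const n)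
      (Df.comp (f := fun p : M × M => C p.1 p.2) (g := fun i : M => (n, i)) h1
        (Df.pair (Df.const n) Df.id))
  refine ind_Dp hD ?_ ?_ i
  · rw [h2]
    exact vn_q0 J c n
  · intro i hi
    rcases h3 n i with h | h
    · rw [h.1]
      exact hi
    · exact h.1.2.1

private theorem chain_df {C : M → M → M} (h : Df S (fun p : M × M => C p.1 p.2)) (n : M)
    {f : M → M} (hf : Df S f) : Df S (fun i => C n (f i)) :=
  Df.comp (f := fun p : M × M => C p.1 p.2) (g := fun i : M => (n, f i)) h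
    (Df.pair (Df.const n) hf)

theorem chain_mono [IS S] (J : JP S) {c : M → M → Prop}
    {C : M → M → M} (hC : IsChain J c C) (n : M) {i k : M} (h : i ≤ k) : C n i ≤ C n k := by
  obtain ⟨h1, h2, h3⟩ := hC
  have hD : Dp S (fun k => i ≤ k → C n i ≤ C n k) :=
    Dp.imp (Dp.le (Df.const i) Df.id)
      (Dp.le (Df.const (C n i)) (chain_df h1 n Df.id))
  refine ind_Dp hD ?_ ?_ k h
  · intro h0
    have : i = 0 := le_antisymm h0 zero_le
    rw [this]
  · intro k ih hk
    rcases eq_or_lt_of_le hk with e | hlt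
    · rw [e]
    · have hk' : i ≤ k := lt_succ_iff.1 hlt
      refine le_trans (ih hk') ?_
      rcases h3 n k with h' | h'
      · exact le_of_eq h'.1.symm
      · exact le_of_lt h'.1.2.2.1

/-- Either the chain is stuck at some `i' < i`, and then stuck for ever, or `i ≤ C n i`. -/
theorem chain_ge [IS S] (J : JP S) {c : M → M → Prop} {C : M → M → M} (hC : IsChain J c C)
    (n i : M) (h : C n (i + 1) ≠ C n i) : i ≤ C n i := by
  obtain ⟨h1, h2, h3⟩ := hC
  have hD : Dp S (fun i => C n (i + 1) ≠ C n i → i ≤ C n i) :=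
    Dp.imp (Dp.ne (chain_df h1 n (Df.add Df.id (Df.const 1))) (chain_df h1 n Df.id))
      (Dp.le Df.id (chain_df h1 n Df.id))
  refine ind_Dp hD ?_ ?_ i h
  · intro _
    exact zero_le
  · intro i ih hne
    rcases h3 n (i + 1) with h' | h'
    · exact absurd h'.1 hne
    · rcases h3 n i with h'' | h''
      · exact absurd (h''.1 ▸ h'.1) (h''.2 _)
      · have hlt : C n i < C n (i + 1) := h''.1.2.2.1
        have := ih (ne_of_gt hlt)
        exact succ_le_iff'.2 (lt_of_le_of_lt this hlt)

/-- The states at stage `n` are `< n` or equal to `q0`. -/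
theorem chain_lt [IS S] (J : JP S) {c : M → M → Prop} {C : M → M → M} (hC : IsChain J c C)
    (n i : M) : C n i < n ∨ C n i = q0 := by
  obtain ⟨h1, h2, h3⟩ := hC
  have hD : Dp S (fun i => C n i < n ∨ C n i = q0) :=
    Dp.or (Dp.lt (chain_df h1 n Df.id) (Df.const n)) (Dp.eq (chain_df h1 n Df.id) (Df.const q0))
  refine ind_Dp hD (Or.inr (h2 n)) ?_ i
  intro i hi
  rcases h3 n i with h' | h'
  · rw [h'.1]
    exact hi
  · exact Or.inl h'.1.1

end Pool.Agent.Work.MP_dfab40_lc.R
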