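import Pool.Agent.Work.MP_dfab40_lc.R.ApiA

/-!
# Module `Cnt` (size M): there are countably many `Σ_1` sets

PROOF.  An inductive type of terms (variables, constants of `M`, `+`, `*`) and of bounded formulas
(`lt`, `mem` with an element of `S`, `not`, `and`, `bex`), variables as natural numbers,
`deriving Countable` (or an injection into lists), evaluation in an environment `ℕ → M` (the new
bound variable is put in front); by induction every `PolyF C f` resp. `D0 S A C R` is, for every
enumeration `x : ℕ → A → M` with `C ⊆ range x`, the evaluation of a term resp. formula at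
`fun i => x i a`.  For `S1u` take `x 0 = fst`, `x i = snd` (`i > 0`).
For functions: `f` is determined by its graph.
-/

namespace Pool.Agent.Work.MP_dfab40_lc.R

private inductive CTm (M : Type) : Type
  | var : ℕ → CTm M
  | const : M → CTm M
  | add : CTm M → CTm M → CTm M
  | mul : CTm M → CTm M → CTm M
  deriving Countable

private inductive CFm (M I : Type) : Type
  | lt : CTm M → CTm M → CFm M I
  | mem : I → CTm M → CFm M I
  | not : CFm M I → CFm M I
  | and : CFm M I → CFm M I → CFm M I
  | bex : CTm M → CFm M I → CFm M I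
  deriving Countable

private def tev {M : Type} [PAm M] (v : ℕ → M) : CTm M → M
  | .var n => v n
  | .const c => c
  | .add s t => tev v s + tev v t
  | .mul s t => tev v s * tev v t

private def vcons {M : Type} (y : M) (v : ℕ → M) : ℕ → M := fun n => Nat.casesOn n y v

private def fev {M I : Type} [PAm M] (X : I → Set M) : (ℕ → M) → CFm M I → Prop
  | v, .lt s t => tev v s < tev v t
  | v, .mem i t => tev v t ∈ X i
  | v, .not φ => ¬ fev X v φ
  | v, .and φ ψ => fev X v φ ∧ fev X v ψ
  | v, .bex t φ => ∃ y, y < tev v t ∧ fev X (vcons y v) φ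

private theorem poly_tev {M A : Type} [PAm M] {C : Set (A → M)} {f : A → M} (h : PolyF C f)
    (x : ℕ → A → M) (hx : C ⊆ Set.range x) :
    ∃ t : CTm M, ∀ a, f a = tev (fun i => x i a) t := by
  induction h with
  | coord hf =>
    obtain ⟨n, hn⟩ := hx hf
    exact ⟨.var n, fun a => by simp [tev, hn]⟩
  | const c => exact ⟨.const c, fun a => rfl⟩
  | add _ _ ih1 ih2 =>
    obtain ⟨s, hs⟩ := ih1
    obtain ⟨t, ht⟩ := ih2
    exact ⟨.add s t, fun a => by simp only [tev, hs, ht]⟩
  | mul _ _ ih1 ih2 =>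
    obtain ⟨s, hs⟩ := ih1
    obtain ⟨t, ht⟩ := ih2
    exact ⟨.mul s t, fun a => by simp only [tev, hs, ht]⟩

private theorem d0_fev {M : Type} [PAm M] {S : Set (Set M)} {A : Type} {C : Set (A → M)}
    {R : A → Prop} (h : D0 S A C R) : ∀ (x : ℕ → A → M), C ⊆ Set.range x →
    ∃ φ : CFm M S, ∀ a, R a ↔ fev (fun i : S => (i : Set M)) (fun i => x i a) φ := by
  induction h with
  | lt hf hg =>
    intro x hx
    obtain ⟨s, hs⟩ := poly_tev hf x hx
    obtain ⟨t, ht⟩ := poly_tev hg x hx
    exact ⟨.lt s t, fun a => by simp only [fev, hs, ht]⟩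
  | @mem A C f X hX hf =>
    intro x hx
    obtain ⟨s, hs⟩ := poly_tev hf x hx
    exact ⟨.mem ⟨X, hX⟩ s, fun a => by simp only [fev, hs]⟩
  | not _ ih =>
    intro x hx
    obtain ⟨φ, hφ⟩ := ih x hx
    exact ⟨.not φ, fun a => by simp only [fev, hφ]⟩
  | and _ _ ih1 ih2 =>
    intro x hx
    obtain ⟨φ, hφ⟩ := ih1 x hx
    obtain ⟨ψ, hψ⟩ := ih2 x hx
    exact ⟨.and φ ψ, fun a => by simp only [fev, hφ, hψ]⟩
  | @bex A C f R hf _ ih =>
    intro x hx
    obtain ⟨s, hs⟩ := poly_tev hf x hx
    obtain ⟨φ, hφ⟩ := ih (fun n p => vcons p.2 (fun i => x i p.1) n) (by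
      rintro g (⟨f', hf', rfl⟩ | rfl)
      · obtain ⟨n, hn⟩ := hx hf'
        refine ⟨n + 1, ?_⟩
        funext p
        simp [vcons, hn]
      · exact ⟨0, rfl⟩)
    refine ⟨.bex s φ, fun a => ?_⟩
    simp only [fev, ← hs]
    constructor
    · rintro ⟨y, hy, hR⟩
      exact ⟨y, hy, (hφ (a, y)).mp hR⟩
    · rintro ⟨y, hy, hR⟩
      exact ⟨y, hy, (hφ (a, y)).mpr hR⟩

theorem countable_S1u {M : Type} [PAm M] [Countable M] {S : Set (Set M)} (hS : S.Countable) :
    {P : M → Prop | S1u S P}.Countable := by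
  have : Countable S := hS.to_subtype
  refine Set.Countable.mono ?_ (Set.countable_range (fun (φ : CFm M S) (x : M) =>
    ∃ w, fev (fun i : S => (i : Set M)) (fun i => if i = 0 then x else w) φ))
  rintro P ⟨R, hR, hP⟩
  obtain ⟨φ, hφ⟩ := d0_fev hR (fun n p => if n = 0 then p.1 else p.2) (by
    rintro g (⟨f', hf', rfl⟩ | rfl)
    · rw [Set.mem_singleton_iff] at hf'
      subst hf'
      exact ⟨0, by funext p; simp⟩
    · exact ⟨1, by funext p; simp⟩)
  refine ⟨φ, ?_⟩
  funext x
  refine propext ?_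
  rw [hP x]
  constructor
  · rintro ⟨w, hw⟩
    exact ⟨w, (hφ (x, w)).mpr hw⟩
  · rintro ⟨w, hw⟩
    exact ⟨w, (hφ (x, w)).mp hw⟩

theorem countable_Df {M : Type} [PAm M] [ISig M] [Countable M] {S : Set (Set M)}
    (hS : S.Countable) : {f : M → M | Df S f}.Countable := by
  have hinj : Function.Injective (fun (f : M → M) (x : M) =>
      f ((Cd.e (M := M) (A := M × M)).symm x).1 = ((Cd.e (M := M) (A := M × M)).symm x).2) := by
    intro f g hfg
    funext a
    have h1 := congrFun hfg ((Cd.e (M := M) (A := M × M)) (a, f a))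
    simp only [Equiv.symm_apply_apply] at h1
    have h2 : g a = f a := h1 ▸ trivial
    exact h2.symm
  have := (countable_S1u (M := M) hS).preimage_of_injOn (f := (fun (f : M → M) (x : M) =>
      f ((Cd.e (M := M) (A := M × M)).symm x).1 = ((Cd.e (M := M) (A := M × M)).symm x).2))
      hinj.injOn
  exact this

end Pool.Agent.Work.MP_dfab40_lc.R
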