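import Pool.Agent.Work.MP_dfab40_lc.R.D.Lim

/-!
# Module `Coll` (size M): collection for the limit of finite sets

PROOF.  Let `φ n x y := Mem (2 * pr g (pr x y)) (k n)` (`Dp`), `K := limS U k`.
`Bn n :=` the least `B` with `n ≤ B ∨ ∀ x < b, ∃ y < B, ¬ φ n x y` (`Df.mu`; exists, `B = n`).
Case 1: `Bn n < B` for `U`-many `n`, some `B`.  Then `Bn n = B0` along `U`, and for `n > B0` (so
`U`-many) `∀ x < b, ∃ y < B0, ¬ φ n x y`.  All numbers `2 * pr g (pr x y)`, `x < b`, `y < B0` are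
`< E` for some `E` (`pr` is monotone: `pr_lt_sq` or `Df.bdd`); by `lim_rst` the restriction of `k n`
to `E` is along `U` the restriction of `K`; take one `n` with all these properties.
Case 2: for all `B`, `B ≤ Bn n` for `U`-many `n` (`Ultrafilter.eventually_not`).  `xn n :=` the least
`x` with `b ≤ x ∨ ∀ y < Bn n, (y + 1 < Bn n → φ n x y)`; it is `≤ b`, so constant `x*` along `U`.
If `0 < Bn n`, `Bn n = B' + 1`, minimality gives `x < b` with `φ n x y` for all `y < B'`; so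
`x* < b`.  For each `y`: along `U`, `y + 1 < Bn n`, so `φ n x* y`; hence `2 * pr g (pr x* y) ∈ K` for
all `y`, contradiction to `h x*`.
-/

namespace Pool.Agent.Work.MP_dfab40_lc.R

variable {M : Type} [PAm M] [ISig M] {S : Set (Set M)}

omit [ISig M] in
private theorem pr_le' (x y : M) : pr x y ≤ (x + y) * (x + y) + (x + y) := by
  unfold pr
  split_ifs with h
  · have h1 : y * y ≤ (x + y) * (x + y) := mul_le_mul' le_add_self le_add_self
    exact add_le_add h1 le_self_add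
  · have h1 : x * x ≤ (x + y) * (x + y) := mul_le_mul' le_self_add le_self_add
    rw [add_assoc]
    exact add_le_add h1 le_rfl

theorem lim_coll [IS S] (U : Ultrafilter M)
    (hU1 : ∀ a : M, ∀ᶠ n in (U : Filter M), a ≤ n)
    (hU2 : ∀ f : M → M, Df S f → ∀ b, (∀ᶠ n in (U : Filter M), f n < b) →
        ∃ v, ∀ᶠ n in (U : Filter M), f n = v) {k : M → M} (hk : Df S k) (b g : M)
    (h : ∀ x, x < b → ∃ y, 2 * pr g (pr x y) ∉ limS U k) :
    ∃ B, ∀ x, x < b → ∃ y, y < B ∧ 2 * pr g (pr x y) ∉ limS U k := by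
  -- the predicate
  have hB_P : Dp S (fun p : M × M => p.1 ≤ p.2 ∨
      ∀ x, x < b → ∃ y, y < p.2 ∧ ¬ Mem (2 * pr g (pr x y)) (k p.1)) := by
    refine Dp.or (Dp.le (Df.fst Df.id) (Df.snd Df.id)) ?_
    refine Dp.ball (f := fun _ : M × M => b) (P := fun (p : M × M) (x : M) =>
      ∃ y, y < p.2 ∧ ¬ Mem (2 * pr g (pr x y)) (k p.1)) (Df.const b) ?_
    refine Dp.bex (f := fun p : (M × M) × M => p.1.2) (P := fun (p : (M × M) × M) (y : M) =>
      ¬ Mem (2 * pr g (pr p.2 y)) (k p.1.1)) (Df.snd (Df.fst Df.id)) ?_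
    refine Dp.not (Dp.mem ?_ ?_)
    · exact Df.mul (Df.const 2) (Df.pr (Df.const g) (Df.pr (Df.snd (Df.fst Df.id)) (Df.snd Df.id)))
    · exact Df.comp hk (Df.fst (Df.fst (Df.fst Df.id)))
  have hB_ex : ∀ n : M, ∃ B, n ≤ B ∨
      ∀ x, x < b → ∃ y, y < B ∧ ¬ Mem (2 * pr g (pr x y)) (k n) :=
    fun n => ⟨n, Or.inl le_rfl⟩
  obtain ⟨Bn, hBn⟩ : ∃ Bn : M → M, Bn = fun n => mu (fun B => n ≤ B ∨
      ∀ x, x < b → ∃ y, y < B ∧ ¬ Mem (2 * pr g (pr x y)) (k n)) := ⟨_, rfl⟩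
  have hBd : Df S Bn := by
    rw [hBn]
    exact Df.mu (P := fun (n : M) (B : M) => n ≤ B ∨
      ∀ x, x < b → ∃ y, y < B ∧ ¬ Mem (2 * pr g (pr x y)) (k n)) hB_P hB_ex
  have hB_Pn : ∀ n : M, Dp S (fun B : M => n ≤ B ∨
      ∀ x, x < b → ∃ y, y < B ∧ ¬ Mem (2 * pr g (pr x y)) (k n)) := by
    intro n
    exact Dp.comp (P := fun p : M × M => p.1 ≤ p.2 ∨
      ∀ x, x < b → ∃ y, y < p.2 ∧ ¬ Mem (2 * pr g (pr x y)) (k p.1)) (f := fun B : M => (n, B))
      hB_P (Df.pair (Df.const n) Df.id)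
  have hB_spec : ∀ n, n ≤ Bn n ∨
      ∀ x, x < b → ∃ y, y < Bn n ∧ ¬ Mem (2 * pr g (pr x y)) (k n) := by
    intro n
    rw [hBn]
    exact mu_spec (S := S) (hB_Pn n) (hB_ex n)
  have hB_min : ∀ n B, (n ≤ B ∨ ∀ x, x < b → ∃ y, y < B ∧ ¬ Mem (2 * pr g (pr x y)) (k n)) →
      Bn n ≤ B := by
    intro n B hB
    rw [hBn]
    exact mu_le (S := S) (hB_Pn n) hB
  by_cases hcase : ∃ B, ∀ᶠ n in (U : Filter M), Bn n < B
  · obtain ⟨B, hB⟩ := hcase
    obtain ⟨B0, hB0⟩ := hU2 Bn hBd B hB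
    obtain ⟨E, hE⟩ := Df.bdd (S := S) (f := fun z : M => 2 * pr g z)
      (Df.mul (Df.const 2) (Df.pr (Df.const g) Df.id)) ((b + B0) * (b + B0) + (b + B0) + 1)
    obtain ⟨a, ha1, ha2⟩ := lim_rst (S := S) U hU2 hk E
    obtain ⟨n, hn1, hn2, hn3⟩ := (hB0.and ((hU1 (B0 + 1)).and ha1)).exists
    have hall : ∀ x, x < b → ∃ y, y < B0 ∧ ¬ Mem (2 * pr g (pr x y)) (k n) := by
      rcases hB_spec n with h1 | h1
      · rw [hn1] at h1
        exact absurd (hn2.trans h1) (not_le.2 (lt_succ_iff.2 le_rfl))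
      · rw [hn1] at h1
        exact h1
    refine ⟨B0, fun x hx => ?_⟩
    obtain ⟨y, hy, hny⟩ := hall x hx
    refine ⟨y, hy, fun hmem => hny ?_⟩
    have hxy : x + y ≤ b + B0 := add_le_add hx.le hy.le
    have hw : 2 * pr g (pr x y) < E := by
      refine hE _ (lt_succ_iff.2 ((pr_le' x y).trans ?_))
      exact add_le_add (mul_le_mul' hxy hxy) hxy
    have h2 := (ha2 _).2 ⟨hw, hmem⟩
    rw [← hn3, mem_rst] at h2
    exact h2.2
  · exfalso
    have hlarge : ∀ B, ∀ᶠ n in (U : Filter M), B ≤ Bn n := by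
      intro B
      have h1 : ¬ ∀ᶠ n in (U : Filter M), Bn n < B := fun h2 => hcase ⟨B, h2⟩
      exact (Ultrafilter.eventually_not.2 h1).mono fun n hn => not_lt.1 hn
    have hX_P : Dp S (fun p : M × M => b ≤ p.2 ∨
        ∀ y, y < Bn p.1 → (y + 1 < Bn p.1 → Mem (2 * pr g (pr p.2 y)) (k p.1))) := by
      refine Dp.or (Dp.le (Df.const b) (Df.snd Df.id)) ?_
      refine Dp.ball (f := fun p : M × M => Bn p.1) (P := fun (p : M × M) (y : M) =>
        (y + 1 < Bn p.1 → Mem (2 * pr g (pr p.2 y)) (k p.1))) (Df.comp hBd (Df.fst Df.id)) ?_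
      refine Dp.imp (Dp.lt (Df.add (Df.snd Df.id) (Df.const 1))
        (Df.comp hBd (Df.fst (Df.fst Df.id)))) ?_
      refine Dp.mem ?_ ?_
      · exact Df.mul (Df.const 2)
          (Df.pr (Df.const g) (Df.pr (Df.snd (Df.fst Df.id)) (Df.snd Df.id)))
      · exact Df.comp hk (Df.fst (Df.fst Df.id))
    have hX_ex : ∀ n : M, ∃ x, b ≤ x ∨
        ∀ y, y < Bn n → (y + 1 < Bn n → Mem (2 * pr g (pr x y)) (k n)) :=
      fun n => ⟨b, Or.inl le_rfl⟩
    have hX_Pn : ∀ n : M, Dp S (fun x : M => b ≤ x ∨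
        ∀ y, y < Bn n → (y + 1 < Bn n → Mem (2 * pr g (pr x y)) (k n))) := by
      intro n
      exact Dp.comp (P := fun p : M × M => b ≤ p.2 ∨
        ∀ y, y < Bn p.1 → (y + 1 < Bn p.1 → Mem (2 * pr g (pr p.2 y)) (k p.1)))
        (f := fun x : M => (n, x)) hX_P (Df.pair (Df.const n) Df.id)
    obtain ⟨xn, hxn⟩ : ∃ xn : M → M, xn = fun n => mu (fun x => b ≤ x ∨
        ∀ y, y < Bn n → (y + 1 < Bn n → Mem (2 * pr g (pr x y)) (k n))) := ⟨_, rfl⟩
    have hXd : Df S xn := by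
      rw [hxn]
      exact Df.mu (P := fun (n : M) (x : M) => b ≤ x ∨
        ∀ y, y < Bn n → (y + 1 < Bn n → Mem (2 * pr g (pr x y)) (k n))) hX_P hX_ex
    have hX_spec : ∀ n, b ≤ xn n ∨
        ∀ y, y < Bn n → (y + 1 < Bn n → Mem (2 * pr g (pr (xn n) y)) (k n)) := by
      intro n
      rw [hxn]
      exact mu_spec (S := S) (hX_Pn n) (hX_ex n)
    have hX_min : ∀ n x, (b ≤ x ∨
        ∀ y, y < Bn n → (y + 1 < Bn n → Mem (2 * pr g (pr x y)) (k n))) → xn n ≤ x := by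
      intro n x hx
      rw [hxn]
      exact mu_le (S := S) (hX_Pn n) hx
    obtain ⟨x0, hx0⟩ := hU2 xn hXd (b + 1)
      (Filter.Eventually.of_forall fun n => lt_succ_iff.2 (hX_min n b (Or.inl le_rfl)))
    have hxb : x0 < b := by
      obtain ⟨n, hn1, hn2⟩ := (hx0.and (hlarge 1)).exists
      have hpos : 0 < Bn n := lt_of_lt_of_le (by exact zero_lt_one) hn2
      obtain ⟨B', hB'⟩ := le_iff_exists_add.1 hn2
      have hlt : B' < Bn n := by
        rw [hB', add_comm]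
        exact lt_succ_iff.2 le_rfl
      have hnot : ¬ (n ≤ B' ∨ ∀ x, x < b → ∃ y, y < B' ∧ ¬ Mem (2 * pr g (pr x y)) (k n)) :=
        fun hc => absurd (hB_min n B' hc) (not_le.2 hlt)
      push Not at hnot
      obtain ⟨x, hx, hxy⟩ := hnot.2
      have h3 := hX_min n x (Or.inr fun y _ hy => hxy y (by
        rw [hB', add_comm 1 B'] at hy
        exact lt_of_add_lt_add_right hy))
      rw [hn1] at h3
      exact lt_of_le_of_lt h3 hx
    obtain ⟨y, hy⟩ := h x0 hxb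
    apply hy
    show ∀ᶠ n in (U : Filter M), Mem (2 * pr g (pr x0 y)) (k n)
    filter_upwards [hx0, hlarge (y + 1 + 1)] with n hn1 hn2
    rcases hX_spec n with h1 | h1
    · rw [hn1] at h1
      exact absurd hxb (not_lt.2 h1)
    · rw [hn1] at h1
      have h4 : y + 1 < Bn n := lt_of_lt_of_le (lt_succ_iff.2 le_rfl) hn2
      have h5 : y < Bn n := lt_trans (lt_succ_iff.2 le_rfl) h4
      exact h1 y h5 h4

end Pool.Agent.Work.MP_dfab40_lc.R
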