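import Pool.Agent.Work.MP_dfab40_lc.R.St

/-!
# Module `DefA` (size S-M): definability of the basic notions of `St`

PROOF.  Only the rules of `ApiA`, `ApiB` (unfold, cases on `j : Bool`, then the closure lemmas).
`nF`, `nB`, `nD` are compositions of `fs`, `sn`.  `col c j x y` is `c x y ↔ True` or `↔ False`.
`Hom`: two quantifiers over the members of `G` (`Dp.allMem`).  `J.Th`: `J.dp` composed with
`Df.pair`.  Hint: `Dp.comp (P := fun p : M × M => ...)` and `Df.pair`.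
-/

namespace Pool.Agent.Work.MP_dfab40_lc.R

variable {M : Type} [PAm M] [ISig M] {S : Set (Set M)} {A : Type} [Cd M A]

theorem Df.nF {f : A → M} (j : Bool) (hf : Df S f) : Df S (fun a => nF j (f a)) := by
  cases j
  · exact Df.fs (Df.fs (Df.fs hf))
  · exact Df.sn (Df.fs (Df.fs hf))

theorem Df.nB {f : A → M} (j : Bool) (hf : Df S f) : Df S (fun a => nB j (f a)) := by
  cases j
  · exact Df.fs (Df.sn (Df.fs hf))
  · exact Df.sn (Df.sn (Df.fs hf))

theorem Df.nD {f : A → M} (j : Bool) (hf : Df S f) : Df S (fun a => nD j (f a)) := by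
  cases j
  · exact Df.fs (Df.fs (Df.sn hf))
  · exact Df.sn (Df.fs (Df.sn hf))

theorem Dp.Th (J : JP S) {f g h : A → M} (hf : Df S f) (hg : Df S g) (hh : Df S h) :
    Dp S (fun a => J.Th (f a) (g a) (h a)) :=
  Dp.comp (P := fun p : M × (M × M) => J.Th p.1 p.2.1 p.2.2) J.dp (Df.pair hf (Df.pair hg hh))

theorem Dp.col {c : M → M → Prop} (hc : Dp S (fun p : M × M => c p.1 p.2)) (j : Bool)
    {f g : A → M} (hf : Df S f) (hg : Df S g) : Dp S (fun a => col c j (f a) (g a)) :=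
  Dp.iff (Dp.comp (P := fun p : M × M => c p.1 p.2) hc (Df.pair hf hg)) (Dp.const (j = true))

theorem Dp.hom [IS S] {c : M → M → Prop} (hc : Dp S (fun p : M × M => c p.1 p.2)) (j : Bool)
    {f : A → M} (hf : Df S f) : Dp S (fun a => Hom c j (f a)) := by
  have h1 : Dp S (fun p : (A × M) × M => p.1.2 < p.2 → R.col c j p.1.2 p.2) :=
    Dp.imp (Dp.lt (Df.snd (Df.fst Df.id)) (Df.snd Df.id))
      (Dp.col hc j (Df.snd (Df.fst Df.id)) (Df.snd Df.id))
  have h2 : Dp S (fun p : A × M => ∀ y, Mem y (f p.1) → p.2 < y → R.col c j p.2 y) :=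
    Dp.allMem (f := fun p : A × M => f p.1) (P := fun p y => p.2 < y → R.col c j p.2 y)
      (Df.comp hf (Df.fst Df.id)) h1
  exact Dp.allMem (P := fun a x => ∀ y, Mem y (f a) → x < y → R.col c j x y) hf h2

theorem Dp.nodeOK [IS S] (J : JP S) {c : M → M → Prop} (hc : Dp S (fun p : M × M => c p.1 p.2))
    {f g : A → M} (hf : Df S f) (hg : Df S g) : Dp S (fun a => NodeOK J c (f a) (g a)) := by
  have key : ∀ j : Bool, Dp S (fun a => (∀ x, Mem x (R.nF j (g a)) → x < f a) ∧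
      Hom c j (R.nF j (g a)) ∧
      ∀ e, Mem e (R.nD j (g a)) → e < R.nB j (g a) ∧ J.Th e (f a) (R.nF j (g a))) := by
    intro j
    refine Dp.and ?_ (Dp.and ?_ ?_)
    · exact Dp.allMem (P := fun a x => x < f a) (Df.nF j hg)
        (Dp.lt (Df.snd Df.id) (Df.comp hf (Df.fst Df.id)))
    · exact Dp.hom hc j (Df.nF j hg)
    · exact Dp.allMem (P := fun a e => e < R.nB j (g a) ∧ J.Th e (f a) (R.nF j (g a)))
        (Df.nD j hg)
        (Dp.and (Dp.lt (Df.snd Df.id) (Df.nB j (Df.comp hg (Df.fst Df.id))))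
          (Dp.Th J (Df.snd Df.id) (Df.comp hf (Df.fst Df.id))
            (Df.nF j (Df.comp hg (Df.fst Df.id)))))
  refine Dp.congr (Dp.and (key false) (key true)) ?_
  intro a
  unfold NodeOK
  rw [Bool.forall_bool]

theorem Dp.ext [IS S] {f g h : A → M} (hf : Df S f) (hg : Df S g) (hh : Df S h) :
    Dp S (fun a => Ext (f a) (g a) (h a)) := by
  have key : ∀ j : Bool, Dp S (fun a => (∀ x, x < f a →
      (Mem x (R.nF j (h a)) ↔ Mem x (R.nF j (g a)))) ∧ R.nB j (g a) ≤ R.nB j (h a) ∧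
      ∀ e, e < R.nB j (g a) → (Mem e (R.nD j (h a)) ↔ Mem e (R.nD j (g a)))) := by
    intro j
    refine Dp.and ?_ (Dp.and ?_ ?_)
    · exact Dp.ball (P := fun a x => (Mem x (R.nF j (h a)) ↔ Mem x (R.nF j (g a)))) hf
        (Dp.iff (Dp.mem (Df.snd Df.id) (Df.nF j (Df.comp hh (Df.fst Df.id))))
          (Dp.mem (Df.snd Df.id) (Df.nF j (Df.comp hg (Df.fst Df.id)))))
    · exact Dp.le (Df.nB j hg) (Df.nB j hh)
    · exact Dp.ball (P := fun a e => (Mem e (R.nD j (h a)) ↔ Mem e (R.nD j (g a))))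
        (Df.nB j hg)
        (Dp.iff (Dp.mem (Df.snd Df.id) (Df.nD j (Df.comp hh (Df.fst Df.id))))
          (Dp.mem (Df.snd Df.id) (Df.nD j (Df.comp hg (Df.fst Df.id)))))
  refine Dp.congr (Dp.and (key false) (key true)) ?_
  intro a
  unfold Ext
  rw [Bool.forall_bool]

theorem Dp.req [IS S] {f g : A → M} (hf : Df S f) (hg : Df S g) :
    Dp S (fun a => Req (f a) (g a)) := by
  have h1 : Dp S (fun p : A × M => (∃ v, Mem v (sn (f p.1)) ∧ Ext (fs (f p.1)) v p.2) ∧
      ∃ j : Bool, f p.1 ≤ R.nB j p.2) := by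
    refine Dp.and ?_ ?_
    · exact Dp.exMem (P := fun (p : A × M) v => Ext (fs (f p.1)) v p.2)
        (Df.sn (Df.comp hf (Df.fst Df.id)))
        (Dp.ext (Df.fs (Df.comp hf (Df.fst (Df.fst Df.id)))) (Df.snd Df.id)
          (Df.snd (Df.fst Df.id)))
    · have h2 : ∀ j : Bool, Dp S (fun p : A × M => f p.1 ≤ R.nB j p.2) := fun j =>
        Dp.le (Df.comp hf (Df.fst Df.id)) (Df.nB j (Df.snd Df.id))
      refine Dp.congr (Dp.or (h2 false) (h2 true)) ?_
      intro a
      rw [Bool.exists_bool]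
  exact Dp.and (Dp.lt hf hg) (Dp.and (Dp.le (Df.fs hf) (Df.fs hg))
    (Dp.allMem (P := fun a v' => (∃ v, Mem v (sn (f a)) ∧ Ext (fs (f a)) v v') ∧
      ∃ j : Bool, f a ≤ R.nB j v') (Df.sn hg) h1))

end Pool.Agent.Work.MP_dfab40_lc.R
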