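import Pool.Agent.Work.MP_dfab40_lc.R.D.DefA

/-!
# Module `DefB` (size M): `Cl` and its bounded existential closure are definable

PROOF.  `Cl_anti`: the same `Z` works (`J.mono` with equal sets, `m ≤ n`).
`Cl_canon`: `Z' := tab n (fun y => if fs q ≤ y then ap Z y else 0)`; it has the same values as `Z` on
`fs q ≤ y < n`, these are members of `sn q`, so `< sn q`, all values are `< sn q + 1`; `tab_lt`,
`ap_tab` (the function is `Df S`).  `Cl` depends only on the values on `fs q ≤ y < n`.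
`Dp.cl`: the quantifier over `G` is bounded by `pow2 n` (all members are `< n`, `lt_pow2_iff`), the
quantifier over `v = ap Z y` is one over `y < n`, `e < nB j v`, `x` over the members of `nF j _`.
`Dp.exCl`: `∃ Z, Cl ↔ ∃ Z < pow2 ((n + (sn q + 1)) * (n + (sn q + 1))), Cl`, by `Cl_canon`.
-/

namespace Pool.Agent.Work.MP_dfab40_lc.R

variable {M : Type} [PAm M] [ISig M] {S : Set (Set M)} {A : Type} [Cd M A]

theorem Cl_anti (J : JP S) {c : M → M → Prop} {q n m Z : M} (h : Cl J c q n Z) (hm : m ≤ n) :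
    Cl J c q m Z := by
  refine ⟨fun y hy hy' => h.1 y (lt_of_lt_of_le hy hm) hy', ?_⟩
  rintro v ⟨y, hy, hy1, hy2⟩ j G hG hH e he hT
  refine h.2 v ⟨y, lt_of_lt_of_le hy hm, hy1, hy2⟩ j G (fun x hx => ?_) hH e he
    (J.mono e m n _ _ hm (fun x _ => Iff.rfl) hT)
  obtain ⟨h1, h2, h3⟩ := hG x hx
  exact ⟨h1, lt_of_lt_of_le h2 hm, h3⟩

theorem Cl_congr (J : JP S) {c : M → M → Prop} {q n Z Z' : M} (h : Cl J c q n Z)
    (hZ : ∀ y, fs q ≤ y → y < n → ap Z' y = ap Z y) : Cl J c q n Z' := by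
  refine ⟨fun y hy hy' => ?_, ?_⟩
  · rw [hZ y hy' hy]
    exact h.1 y hy hy'
  · rintro v ⟨y, hy, hy1, hy2⟩ j G hG hH e he hT
    refine h.2 v ⟨y, hy, hy1, by rw [← hZ y hy1 hy]; exact hy2⟩ j G (fun x hx => ?_) hH e he hT
    obtain ⟨h1, h2, h3⟩ := hG x hx
    exact ⟨h1, h2, by rw [← hZ x h1 h2]; exact h3⟩

theorem Cl_canon [IS S] (J : JP S) {c : M → M → Prop} {q n Z : M} (h : Cl J c q n Z) :
    ∃ Z', Z' < pow2 ((n + (sn q + 1)) * (n + (sn q + 1))) ∧ Cl J c q n Z' := by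
  obtain ⟨F, hF, hF1, hF2⟩ : ∃ F : M → M, Df S F ∧ (∀ y, fs q ≤ y → F y = ap Z y) ∧
      ∀ y, ¬ fs q ≤ y → F y = 0 := by
    refine ⟨_, Df.ite (P := fun y : M => fs q ≤ y) (Dp.le (Df.const (fs q)) Df.id)
      (Df.ap (Df.const Z) Df.id) (Df.const 0), fun y hy => ?_, fun y hy => ?_⟩
    · exact if_pos hy
    · exact if_neg hy
  refine ⟨tab n F, ?_, ?_⟩
  · refine tab_lt hF (fun x hx => ?_)
    by_cases hq : fs q ≤ x
    · rw [hF1 x hq]
      exact lt_succ_iff.2 (le_of_lt (mem_lt (h.1 x hx hq).1))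
    · rw [hF2 x hq]
      exact lt_succ_iff.2 zero_le
  · refine Cl_congr J h (fun y hy hy' => ?_)
    rw [ap_tab hF hy', hF1 y hy]

theorem Dp.cl [IS S] (J : JP S) {c : M → M → Prop} (hc : Dp S (fun p : M × M => c p.1 p.2))
    {f g h : A → M} (hf : Df S f) (hg : Df S g) (hh : Df S h) :
    Dp S (fun a => Cl J c (f a) (g a) (h a)) := by
  have k1 : ∀ j : Bool, Dp S (fun p : A × M => ∀ x, Mem x (nF j (ap (h p.1) p.2)) →
      R.col c j x p.2) := by
    intro j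
    exact Dp.allMem (P := fun (p : A × M) x => R.col c j x p.2)
      (Df.nF j (Df.ap (Df.comp hh (Df.fst Df.id)) (Df.snd Df.id)))
      (Dp.col hc j (Df.snd Df.id) (Df.snd (Df.fst Df.id)))
  have k2 : Dp S (fun a => ∀ y, y < g a → (fs (f a) ≤ y → Mem (ap (h a) y) (sn (f a)) ∧
      ((∀ x, Mem x (nF false (ap (h a) y)) → R.col c false x y) ∧
        ∀ x, Mem x (nF true (ap (h a) y)) → R.col c true x y))) := by
    refine Dp.ball (P := fun a y => (fs (f a) ≤ y → Mem (ap (h a) y) (sn (f a)) ∧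
      ((∀ x, Mem x (nF false (ap (h a) y)) → R.col c false x y) ∧
        ∀ x, Mem x (nF true (ap (h a) y)) → R.col c true x y))) hg ?_
    refine Dp.imp (Dp.le (Df.fs (Df.comp hf (Df.fst Df.id))) (Df.snd Df.id)) (Dp.and ?_
      (Dp.and (k1 false) (k1 true)))
    exact Dp.mem (Df.ap (Df.comp hh (Df.fst Df.id)) (Df.snd Df.id))
      (Df.sn (Df.comp hf (Df.fst Df.id)))
  have k3 : ∀ j : Bool, Dp S (fun p : A × M => ∀ G, G < pow2 (g p.1) →
      ((∀ x, Mem x G → fs (f p.1) ≤ x ∧ x < g p.1 ∧ ap (h p.1) x = ap (h p.1) p.2) → Hom c j G →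
        ∀ e, e < nB j (ap (h p.1) p.2) → (J.Th e (g p.1) (un (nF j (ap (h p.1) p.2)) G) →
          Mem e (nD j (ap (h p.1) p.2))))) := by
    intro j
    refine Dp.ball (P := fun (p : A × M) G =>
      ((∀ x, Mem x G → fs (f p.1) ≤ x ∧ x < g p.1 ∧ ap (h p.1) x = ap (h p.1) p.2) → Hom c j G →
        ∀ e, e < R.nB j (ap (h p.1) p.2) → (J.Th e (g p.1) (un (R.nF j (ap (h p.1) p.2)) G) →
          Mem e (R.nD j (ap (h p.1) p.2)))))
      (Df.pow2 (Df.comp hg (Df.fst Df.id))) ?_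
    have hv2 : Df S (fun p : (A × M) × M => ap (h p.1.1) p.1.2) :=
      Df.ap (Df.comp hh (Df.fst (Df.fst Df.id))) (Df.snd (Df.fst Df.id))
    have hv3 : Df S (fun p : ((A × M) × M) × M => ap (h p.1.1.1) p.1.1.2) :=
      Df.ap (Df.comp hh (Df.fst (Df.fst (Df.fst Df.id)))) (Df.snd (Df.fst (Df.fst Df.id)))
    refine Dp.imp ?_ (Dp.imp (Dp.hom hc j (Df.snd Df.id)) ?_)
    · refine Dp.allMem (P := fun (p : (A × M) × M) x => fs (f p.1.1) ≤ x ∧ x < g p.1.1 ∧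
        ap (h p.1.1) x = ap (h p.1.1) p.1.2) (Df.snd Df.id) ?_
      refine Dp.and (Dp.le (Df.fs (Df.comp hf (Df.fst (Df.fst (Df.fst Df.id))))) (Df.snd Df.id))
        (Dp.and (Dp.lt (Df.snd Df.id) (Df.comp hg (Df.fst (Df.fst (Df.fst Df.id))))) ?_)
      exact Dp.eq (Df.ap (Df.comp hh (Df.fst (Df.fst (Df.fst Df.id)))) (Df.snd Df.id)) hv3
    · refine Dp.ball (P := fun (p : (A × M) × M) e =>
        (J.Th e (g p.1.1) (un (R.nF j (ap (h p.1.1) p.1.2)) p.2) →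
          Mem e (R.nD j (ap (h p.1.1) p.1.2))))
        (Df.nB j hv2) ?_
      refine Dp.imp (Dp.Th J (Df.snd Df.id) (Df.comp hg (Df.fst (Df.fst (Df.fst Df.id))))
        (Df.un (Df.nF j hv3) (Df.snd (Df.fst Df.id)))) ?_
      exact Dp.mem (Df.snd Df.id) (Df.nD j hv3)
  have k4 : Dp S (fun a => ∀ y, y < g a → (fs (f a) ≤ y →
      ((∀ G, G < pow2 (g a) →
      ((∀ x, Mem x G → fs (f a) ≤ x ∧ x < g a ∧ ap (h a) x = ap (h a) y) → Hom c false G →
        ∀ e, e < nB false (ap (h a) y) → (J.Th e (g a) (un (nF false (ap (h a) y)) G) →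
          Mem e (nD false (ap (h a) y))))) ∧
      (∀ G, G < pow2 (g a) →
      ((∀ x, Mem x G → fs (f a) ≤ x ∧ x < g a ∧ ap (h a) x = ap (h a) y) → Hom c true G →
        ∀ e, e < nB true (ap (h a) y) → (J.Th e (g a) (un (nF true (ap (h a) y)) G) →
          Mem e (nD true (ap (h a) y)))))))) :=
    Dp.ball (P := fun a y => (fs (f a) ≤ y →
      ((∀ G, G < pow2 (g a) →
      ((∀ x, Mem x G → fs (f a) ≤ x ∧ x < g a ∧ ap (h a) x = ap (h a) y) → Hom c false G →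
        ∀ e, e < R.nB false (ap (h a) y) → (J.Th e (g a) (un (R.nF false (ap (h a) y)) G) →
          Mem e (R.nD false (ap (h a) y))))) ∧
      (∀ G, G < pow2 (g a) →
      ((∀ x, Mem x G → fs (f a) ≤ x ∧ x < g a ∧ ap (h a) x = ap (h a) y) → Hom c true G →
        ∀ e, e < R.nB true (ap (h a) y) → (J.Th e (g a) (un (R.nF true (ap (h a) y)) G) →
          Mem e (R.nD true (ap (h a) y))))))))
      hg (Dp.imp (Dp.le (Df.fs (Df.comp hf (Df.fst Df.id))) (Df.snd Df.id))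
        (Dp.and (k3 false) (k3 true)))
  refine Dp.congr (Dp.and k2 k4) ?_
  intro a
  unfold Cl
  refine and_congr ?_ ?_
  · refine forall_congr' fun y => imp_congr_right fun _ => imp_congr_right fun _ =>
      and_congr_right fun _ => ?_
    rw [Bool.forall_bool]
  · constructor
    · rintro h1 v ⟨y, hy, hy1, rfl⟩ j G hG
      have h2 := h1 y hy hy1
      cases j
      · exact h2.1 G (lt_pow2_iff.2 fun x hx => (hG x hx).2.1) hG
      · exact h2.2 G (lt_pow2_iff.2 fun x hx => (hG x hx).2.1) hG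
    · intro h1 y hy hy1
      exact ⟨fun G _ hG => h1 _ ⟨y, hy, hy1, rfl⟩ false G hG,
        fun G _ hG => h1 _ ⟨y, hy, hy1, rfl⟩ true G hG⟩

theorem Dp.exCl [IS S] (J : JP S) {c : M → M → Prop} (hc : Dp S (fun p : M × M => c p.1 p.2))
    {f g : A → M} (hf : Df S f) (hg : Df S g) :
    Dp S (fun a => ∃ Z, Cl J c (f a) (g a) Z) := by
  have h1 : Df S (fun a => (g a + (sn (f a) + 1)) * (g a + (sn (f a) + 1))) :=
    Df.mul (Df.add hg (Df.add (Df.sn hf) (Df.const _))) (Df.add hg (Df.add (Df.sn hf) (Df.const _)))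
  have h2 : Dp S (fun p : A × M => Cl J c (f p.1) (g p.1) p.2) :=
    Dp.cl J hc (Df.comp hf (Df.fst Df.id)) (Df.comp hg (Df.fst Df.id)) (Df.snd Df.id)
  refine Dp.congr (Dp.bex (P := fun a Z => Cl J c (f a) (g a) Z) (Df.pow2 h1) h2) ?_
  intro a
  constructor
  · rintro ⟨Z, -, hZ⟩
    exact ⟨Z, hZ⟩
  · rintro ⟨Z, hZ⟩
    obtain ⟨Z', h3, h4⟩ := Cl_canon J hZ
    exact ⟨Z', h3, h4⟩

end Pool.Agent.Work.MP_dfab40_lc.R
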