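import Pool.Agent.Work.MP_dfab40_lc.R.D.Chain
import Pool.Agent.Work.MP_dfab40_lc.R.Next

/-!
# Module `Istar` (size M): the states which stabilise along the ultrafilter

`hU1`: every `[a, ∞)` is in `U`; `hU2`: bounded `Δ_1` functions are constant along `U`.

PROOF.  `stab_valid`: `VN J c (n + 1) q` for `U`-many `n` by `chain_vn`; for `m` take such an
`n ≥ m` and `Cl_anti`.
`stab_next`: let `q''` be valid with `Req q q''` (`next_lemma`).  For `U`-many `n`: `q'' < n + 1`,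
`C (n+1) i = q`, so `Good J c (n+1) q q''` (`Cl` for `n + 1 ≥ fs q''`), hence the second alternative
of `IsChain` holds and `C (n+1) (i+1) ≤ q''`: bounded, so constant `= q'` (the function
`n ↦ C (n+1) (i+1)` is `Df`), and `Good` gives `Req q q'`.
`stab_cofinal`: suppose all stable values are `< B` (`B > 0`, `q0 < B`).  `i_n :=` the least `i` with
`C (n+1) i < B ∧ (i = B ∨ B ≤ C (n+1) (i+1))` exists for every `n` (otherwise `C (n+1) i < B` for all
`i ≤ B` by induction); it is `≤ B`: along `U` constant `i*`, and `C (n+1) i* < B` is bounded so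
constant, so `i*` is stable with value `q < B`.  By `stab_next` also `i* + 1` is stable with a value
`q' > q`; `q' < B` by assumption, so `i* = B`; but `C (n+1) (i*+1) ≠ C (n+1) i*` and `chain_ge` give
`B = i* ≤ q < B`.
-/

set_option autoImplicit false

namespace Pool.Agent.Work.MP_dfab40_lc.R

variable {M : Type} [PAm M] [ISig M] {S : Set (Set M)}

theorem stab_valid [IS S] (J : JP S) {c : M → M → Prop} (hc : Dp S (fun p : M × M => c p.1 p.2))
    {C : M → M → M} (hC : IsChain J c C) (U : Ultrafilter M)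
    (hU1 : ∀ a : M, ∀ᶠ n in (U : Filter M), a ≤ n) {i q : M}
    (h : ∀ᶠ n in (U : Filter M), C (n + 1) i = q) : Valid J c q := by
  refine ⟨?_, ?_⟩
  · obtain ⟨n, hn⟩ := h.exists
    have := chain_vn J hc hC (n + 1) i
    rw [hn] at this
    exact this.1
  · intro m _
    obtain ⟨n, hn, hmn⟩ := (h.and (hU1 m)).exists
    have := chain_vn J hc hC (n + 1) i
    rw [hn] at this
    obtain ⟨Z, hZ⟩ := this.2
    exact ⟨Z, Cl_anti J hZ (le_of_lt (lt_succ_iff.2 hmn))⟩

private theorem chain_df2 {C : M → M → M} (h : Df S (fun p : M × M => C p.1 p.2)) (i : M) :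
    Df S (fun n => C (n + 1) i) :=
  Df.comp (f := fun p : M × M => C p.1 p.2) (g := fun n : M => (n + 1, i)) h
    (Df.pair (Df.add Df.id (Df.const 1)) (Df.const i))

private theorem chain_df3 {C : M → M → M} (h : Df S (fun p : M × M => C p.1 p.2)) (n : M)
    {f : M → M} (hf : Df S f) : Df S (fun i => C n (f i)) :=
  Df.comp (f := fun p : M × M => C p.1 p.2) (g := fun i : M => (n, f i)) h
    (Df.pair (Df.const n) hf)

theorem stab_next [IS S] (J : JP S) {c : M → M → Prop} (hc : Dp S (fun p : M × M => c p.1 p.2))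
    {C : M → M → M} (hC : IsChain J c C) (U : Ultrafilter M)
    (hU1 : ∀ a : M, ∀ᶠ n in (U : Filter M), a ≤ n)
    (hU2 : ∀ f : M → M, Df S f → ∀ b, (∀ᶠ n in (U : Filter M), f n < b) →
        ∃ v, ∀ᶠ n in (U : Filter M), f n = v) {i q : M}
    (h : ∀ᶠ n in (U : Filter M), C (n + 1) i = q) :
    ∃ q', (∀ᶠ n in (U : Filter M), C (n + 1) (i + 1) = q') ∧ Req q q' := by
  obtain ⟨q2, hv2, hr2⟩ := next_lemma J c hc q (stab_valid J hc hC U hU1 h)
  have key : ∀ᶠ n in (U : Filter M), Good J c (n + 1) q (C (n + 1) (i + 1)) ∧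
      C (n + 1) (i + 1) ≤ q2 := by
    filter_upwards [h, hU1 q2] with n hn hq2
    have hG : Good J c (n + 1) q q2 := by
      refine ⟨lt_succ_iff.2 hq2, ⟨hv2.1, hv2.2 (n + 1) ?_⟩, hr2⟩
      exact le_trans (fs_le q2) (le_of_lt (lt_succ_iff.2 hq2))
    rcases hC.2.2 (n + 1) i with h' | h'
    · rw [hn] at h'
      exact absurd hG (h'.2 q2)
    · rw [hn] at h'
      exact ⟨h'.1, h'.2 q2 hG⟩
  have hb : ∀ᶠ n in (U : Filter M), C (n + 1) (i + 1) < q2 + 1 := by
    filter_upwards [key] with n hn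
    exact lt_succ_iff.2 hn.2
  obtain ⟨v, hv⟩ := hU2 (fun n => C (n + 1) (i + 1)) (chain_df2 hC.1 (i + 1)) (q2 + 1) hb
  refine ⟨v, hv, ?_⟩
  obtain ⟨n, hn, hvn⟩ := (key.and hv).exists
  rw [hvn] at hn
  exact hn.1.2.2

theorem stab_cofinal [IS S] (J : JP S) {c : M → M → Prop} (hc : Dp S (fun p : M × M => c p.1 p.2))
    {C : M → M → M} (hC : IsChain J c C) (U : Ultrafilter M)
    (hU1 : ∀ a : M, ∀ᶠ n in (U : Filter M), a ≤ n)
    (hU2 : ∀ f : M → M, Df S f → ∀ b, (∀ᶠ n in (U : Filter M), f n < b) →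
        ∃ v, ∀ᶠ n in (U : Filter M), f n = v) (a : M) :
    ∃ i q, a ≤ q ∧ ∀ᶠ n in (U : Filter M), C (n + 1) i = q := by
  by_contra hcon
  have hlt : ∀ i q, (∀ᶠ n in (U : Filter M), C (n + 1) i = q) → q < a := by
    intro i q h
    by_contra hq
    exact hcon ⟨i, q, not_lt.1 hq, h⟩
  have hq0 : (q0 : M) < a := hlt 0 q0 (Filter.Eventually.of_forall fun n => hC.2.1 (n + 1))
  have hdp : Dp S (fun p : M × M => C (p.1 + 1) p.2 < a ∧ (p.2 = a ∨ a ≤ C (p.1 + 1) (p.2 + 1))) := by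
    have e1 : Df S (fun p : M × M => C (p.1 + 1) p.2) :=
      Df.comp (f := fun p : M × M => C p.1 p.2) (g := fun p : M × M => (p.1 + 1, p.2)) hC.1
        (Df.pair (Df.add (Df.fst Df.id) (Df.const 1)) (Df.snd Df.id))
    have e2 : Df S (fun p : M × M => C (p.1 + 1) (p.2 + 1)) :=
      Df.comp (f := fun p : M × M => C p.1 p.2) (g := fun p : M × M => (p.1 + 1, p.2 + 1)) hC.1
        (Df.pair (Df.add (Df.fst Df.id) (Df.const 1)) (Df.add (Df.snd Df.id) (Df.const 1)))
    exact (Dp.lt e1 (Df.const a)).and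
      ((Dp.eq (Df.snd Df.id) (Df.const a)).or (Dp.le (Df.const a) e2))
  have hex : ∀ n, ∃ i, i ≤ a ∧ (C (n + 1) i < a ∧ (i = a ∨ a ≤ C (n + 1) (i + 1))) := by
    intro n
    by_contra hno
    push Not at hno
    have hD : Dp S (fun i => i ≤ a → C (n + 1) i < a) :=
      Dp.imp (Dp.le Df.id (Df.const a)) (Dp.lt (chain_df3 hC.1 (n + 1) Df.id) (Df.const a))
    have hall : ∀ i, i ≤ a → C (n + 1) i < a := by
      intro i
      refine ind_Dp hD ?_ ?_ i
      · intro _
        rw [hC.2.1]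
        exact hq0
      · intro i ih hi
        have hi' : i < a := succ_le_iff'.1 hi
        exact (hno i (le_of_lt hi') (ih (le_of_lt hi'))).2
    exact (hno a le_rfl (hall a le_rfl)).1 rfl
  have hmuD : Df S (fun n => mu (fun i => C (n + 1) i < a ∧ (i = a ∨ a ≤ C (n + 1) (i + 1)))) := by
    refine Df.mu (P := fun n i => C (n + 1) i < a ∧ (i = a ∨ a ≤ C (n + 1) (i + 1))) hdp ?_
    intro n
    obtain ⟨i, _, hi⟩ := hex n
    exact ⟨i, hi⟩
  have hPn : ∀ n, Dp S (fun i => C (n + 1) i < a ∧ (i = a ∨ a ≤ C (n + 1) (i + 1))) := by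
    intro n
    exact Dp.comp (P := fun p : M × M => C (p.1 + 1) p.2 < a ∧ (p.2 = a ∨ a ≤ C (p.1 + 1) (p.2 + 1)))
      (f := fun i : M => (n, i)) hdp (Df.pair (Df.const n) Df.id)
  have hbd : ∀ᶠ n in (U : Filter M),
      mu (fun i => C (n + 1) i < a ∧ (i = a ∨ a ≤ C (n + 1) (i + 1))) < a + 1 := by
    refine Filter.Eventually.of_forall fun n => ?_
    obtain ⟨i, hia, hi⟩ := hex n
    exact lt_succ_iff.2 (le_trans (mu_le (hPn n) hi) hia)
  obtain ⟨i, hi⟩ := hU2 _ hmuD (a + 1) hbd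
  have hi' : ∀ᶠ n in (U : Filter M), C (n + 1) i < a ∧ (i = a ∨ a ≤ C (n + 1) (i + 1)) := by
    filter_upwards [hi] with n hn
    obtain ⟨k, _, hk⟩ := hex n
    have := mu_spec (hPn n) ⟨k, hk⟩
    rw [hn] at this
    exact this
  obtain ⟨q, hq⟩ := hU2 (fun n => C (n + 1) i) (chain_df2 hC.1 i) a (hi'.mono fun n hn => hn.1)
  obtain ⟨q', hq', hr⟩ := stab_next J hc hC U hU1 hU2 hq
  have hqa := hlt i q hq
  have hq'a := hlt (i + 1) q' hq'
  obtain ⟨n, ⟨hn1, hn2⟩, hn3⟩ := ((hi'.and hq).and hq').exists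
  have hia : i = a := by
    rcases hn1.2 with h | h
    · exact h
    · rw [hn3] at h
      exact absurd hq'a (not_lt.2 h)
  have hge := chain_ge J hC (n + 1) i (by rw [hn2, hn3]; exact ne_of_gt hr.1)
  rw [hn2, hia] at hge
  exact absurd hqa (not_lt.2 hge)

end Pool.Agent.Work.MP_dfab40_lc.R
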