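import Pool.Agent.Work.MP_dfab40_lc.R.D.Top
import Pool.Agent.Work.MP_dfab40_lc.R.D.Istar

/-!
# Module `Early` (size S-M): the facts are decided early on one side

PROOF.  `early_some`: by `stab_cofinal`, `stab_next` take stable `i, q ≥ a` and `i + 1, q'` with
`Req q q'`; `t := fs q'`.  For `U`-many `n` (with `n + 1 ≥ i + 1`) `exists_top` gives `v` in `sn q'`
with `Ext (fs q') v (tn n)`, `Req` gives `j` with `a ≤ q ≤ nB j v ≤ nB j (tn n)`; if `e < a` is in
`nD j (tn n)` it is in `nD j v`, so `Th e t (nF j v)` by `stab_valid` (NodeOK), and `J.mono` (the two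
sets agree below `t`).
`early`: pigeonhole for the two colours: if each `j` fails for `a_j` (for all `t`), apply
`early_some` to `max a_false a_true`; one `j` occurs for `U`-many `n` (`Ultrafilter.eventually_or`),
and `a_j ≤ a`.
-/

namespace Pool.Agent.Work.MP_dfab40_lc.R

variable {M : Type} [PAm M] [ISig M] {S : Set (Set M)}

/-- On the side `j` the facts `< a` are decided before `t`. -/
def EarlyAt (J : JP S) (tn : M → M) (j : Bool) (a t n : M) : Prop :=
  a ≤ nB j (tn n) ∧ ∀ e, e < a → Mem e (nD j (tn n)) → J.Th e t (nF j (tn n))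

theorem early_some [IS S] (J : JP S) {c : M → M → Prop} (hc : Dp S (fun p : M × M => c p.1 p.2))
    {C : M → M → M} (hC : IsChain J c C) (U : Ultrafilter M)
    (hU1 : ∀ a : M, ∀ᶠ n in (U : Filter M), a ≤ n)
    (hU2 : ∀ f : M → M, Df S f → ∀ b, (∀ᶠ n in (U : Filter M), f n < b) →
        ∃ v, ∀ᶠ n in (U : Filter M), f n = v) {tn : M → M}
    (ht : ∀ n i, i ≤ n + 1 → ∃ v, Mem v (sn (C (n + 1) i)) ∧ Ext (fs (C (n + 1) i)) v (tn n))
    (a : M) : ∃ t, ∀ᶠ n in (U : Filter M), ∃ j, EarlyAt J tn j a t n := by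
  obtain ⟨i, q, haq, hq⟩ := stab_cofinal J hc hC U hU1 hU2 a
  obtain ⟨q', hq', hreq⟩ := stab_next J hc hC U hU1 hU2 hq
  have hval : Valid J c q' := stab_valid J hc hC U hU1 hq'
  refine ⟨fs q', ?_⟩
  filter_upwards [hq', hU1 i] with n hn hin
  have hi1 : i + 1 ≤ n + 1 := by
    rw [succ_le_iff', lt_succ_iff]
    exact hin
  obtain ⟨v, hv, hext⟩ := ht n (i + 1) hi1
  rw [hn] at hv hext
  obtain ⟨j, hj⟩ := (hreq.2.2 v hv).2
  obtain ⟨hF, hB, hD⟩ := hext j
  refine ⟨j, le_trans haq (le_trans hj hB), ?_⟩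
  intro e he hm
  have heB : e < nB j v := lt_of_lt_of_le he (le_trans haq hj)
  have hmv : Mem e (nD j v) := (hD e heB).1 hm
  have hTh : J.Th e (fs q') (nF j v) := ((hval.1 v hv j).2.2 e hmv).2
  exact J.mono e (fs q') (fs q') (nF j v) (nF j (tn n)) le_rfl (fun x hx => (hF x hx).symm) hTh

theorem early (J : JP S) (U : Ultrafilter M) {tn : M → M}
    (h : ∀ a : M, ∃ t, ∀ᶠ n in (U : Filter M), ∃ j, EarlyAt J tn j a t n) :
    ∃ j, ∀ a : M, ∃ t, ∀ᶠ n in (U : Filter M), EarlyAt J tn j a t n := by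
  by_contra hcon
  push Not at hcon
  obtain ⟨a0, h0⟩ := hcon false
  obtain ⟨a1, h1⟩ := hcon true
  obtain ⟨t, ht⟩ := h (max a0 a1)
  have key : (∀ᶠ n in (U : Filter M), EarlyAt J tn false (max a0 a1) t n) ∨
      ∀ᶠ n in (U : Filter M), EarlyAt J tn true (max a0 a1) t n := by
    rw [← Ultrafilter.eventually_or]
    filter_upwards [ht] with n hn
    obtain ⟨j, hj⟩ := hn
    cases j
    · exact Or.inl hj
    · exact Or.inr hj
  rcases key with hk | hk
  · obtain ⟨n, hn, hn'⟩ := (hk.and (h0 t)).exists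
    exact hn' ⟨le_trans (le_max_left _ _) hn.1,
      fun e he hm => hn.2 e (lt_of_lt_of_le he (le_max_left _ _)) hm⟩
  · obtain ⟨n, hn, hn'⟩ := (hk.and (h1 t)).exists
    exact hn' ⟨le_trans (le_max_right _ _) hn.1,
      fun e he hm => hn.2 e (lt_of_lt_of_le he (le_max_right _ _)) hm⟩

end Pool.Agent.Work.MP_dfab40_lc.R
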