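import Pool.Agent.Work.MP_dfab40_lc.R.D.Early

/-!
# Module `Lim` (size M): limits of finite sets along the ultrafilter

For a `Δ_1` function `g` (values finite sets) `limS U g := {x | x ∈ g n for U-many n}`.

PROOF.  `lim_rst`: `n ↦ rst (g n) b` is `Df` and `< pow2 b`, so constant `= a` along `U`; then
`Mem x a ↔ x < b ∧ x ∈ limS` by `mem_rst` (for `U`-many `n`).
`jump_iff` (→ `Jump`): `t` from `he (e + 1)`; along `U`: `Mem e (nD j (tn n))`, so
`Th e t (nF j (tn n))`; `F := ` the limit of `rst (nF j (tn n)) t`, agrees with `nF j (tn n)` below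
`t`, so `Th e t F` (`J.mono`), and `F` agrees with `limS` below `t`.
(← ): `w, F` with `Th e w F`; along `U`: `nF j (tn n)` agrees with `limS`, hence with `F`, below `w`,
and `w ≤ n + 1`, so `Th e (n + 1) (nF j (tn n))` by `J.mono`; `e < e + 1 ≤ nB j (tn n)`, so
`Mem e (nD j (tn n))` by `h2`.
`lim_unbdd`: `e = 2 * a + 1`: for `a ≤ n`, `Th e (n + 1) (ins n (nF j (tn n)))` by `J.big` (`x = n`),
so `Mem e (nD j (tn n))` by `h3` along `U`; `jump_iff` and `J.big'`.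
`lim_hom`: two members are members of `nF j (tn n)` for `U`-many (so for one) `n`.
-/

namespace Pool.Agent.Work.MP_dfab40_lc.R

variable {M : Type} [PAm M] [ISig M] {S : Set (Set M)}

/-- Limit of a sequence of finite sets along `U`. -/
def limS (U : Ultrafilter M) (g : M → M) : Set M := {x | ∀ᶠ n in (U : Filter M), Mem x (g n)}

theorem lim_rst [IS S] (U : Ultrafilter M)
    (hU2 : ∀ f : M → M, Df S f → ∀ b, (∀ᶠ n in (U : Filter M), f n < b) →
        ∃ v, ∀ᶠ n in (U : Filter M), f n = v) {g : M → M} (hg : Df S g) (b : M) :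
    ∃ a, (∀ᶠ n in (U : Filter M), rst (g n) b = a) ∧ ∀ x, Mem x a ↔ x < b ∧ x ∈ limS U g := by
  have hf : Df S (fun n => rst (g n) b) := Df.rst hg (Df.const b)
  obtain ⟨a, ha⟩ := hU2 (fun n => rst (g n) b) hf (pow2 b) (Filter.Eventually.of_forall (fun n => by
    exact lt_pow2_iff.2 (fun x hx => (mem_rst.1 hx).1)))
  refine ⟨a, ha, fun x => ⟨fun hx => ?_, fun hx => ?_⟩⟩
  · refine ⟨?_, ?_⟩
    · obtain ⟨n, hn⟩ := ha.exists
      rw [← hn] at hx
      exact (mem_rst.1 hx).1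
    · show ∀ᶠ n in (U : Filter M), Mem x (g n)
      filter_upwards [ha] with n hn
      rw [← hn] at hx
      exact (mem_rst.1 hx).2
  · obtain ⟨hxb, hxl⟩ := hx
    have hxl' : ∀ᶠ n in (U : Filter M), Mem x (g n) := hxl
    obtain ⟨n, hn, hm⟩ := (ha.and hxl').exists
    rw [← hn]
    exact mem_rst.2 ⟨hxb, hm⟩

theorem jump_iff [IS S] (J : JP S) (U : Ultrafilter M)
    (hU1 : ∀ a : M, ∀ᶠ n in (U : Filter M), a ≤ n)
    (hU2 : ∀ f : M → M, Df S f → ∀ b, (∀ᶠ n in (U : Filter M), f n < b) →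
        ∃ v, ∀ᶠ n in (U : Filter M), f n = v) {tn : M → M} (htn : Df S tn) (j : Bool)
    (h2 : ∀ n e, e < nB j (tn n) → J.Th e (n + 1) (nF j (tn n)) → Mem e (nD j (tn n)))
    (he : ∀ a : M, ∃ t, ∀ᶠ n in (U : Filter M), EarlyAt J tn j a t n) (e : M) :
    J.Jump (limS U (fun n => nF j (tn n))) e ↔ e ∈ limS U (fun n => nD j (tn n)) := by
  have hg : Df S (fun n => nF j (tn n)) := Df.nF j htn
  obtain ⟨t, ht⟩ := he (e + 1)
  constructor
  · rintro ⟨w, F, hF, hTh⟩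
    obtain ⟨a, ha, hma⟩ := lim_rst U hU2 hg w
    show ∀ᶠ n in (U : Filter M), Mem e (nD j (tn n))
    filter_upwards [ha, ht, hU1 w] with n hn hn2 hn3
    refine h2 n e (lt_of_lt_of_le (lt_succ_iff.2 le_rfl) hn2.1) ?_
    refine J.mono e w (n + 1) F (nF j (tn n)) (le_trans hn3 (le_of_lt (lt_succ_iff.2 le_rfl)))
      (fun x hx => ?_) hTh
    rw [hF x hx]
    have h1 : Mem x (rst (nF j (tn n)) w) ↔ x < w ∧ x ∈ limS U (fun n => nF j (tn n)) := by
      have h0 := hma x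
      rw [← hn] at h0
      exact h0
    rw [mem_rst] at h1
    constructor
    · intro h
      exact (h1.2 ⟨hx, h⟩).2
    · intro h
      exact (h1.1 ⟨hx, h⟩).2
  · intro hee
    have hee' : ∀ᶠ n in (U : Filter M), Mem e (nD j (tn n)) := hee
    obtain ⟨a, ha, hma⟩ := lim_rst U hU2 hg t
    obtain ⟨n, hn, hn2, hn3⟩ := (ha.and (ht.and hee')).exists
    refine ⟨t, a, fun x hx => ?_, ?_⟩
    · rw [hma x]
      exact ⟨fun h => h.2, fun h => ⟨hx, h⟩⟩
    · refine J.mono e t t (nF j (tn n)) a le_rfl (fun x hx => ?_)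
        (hn2.2 e (lt_succ_iff.2 le_rfl) hn3)
      have hn' : rst (nF j (tn n)) t = a := hn
      rw [← hn', mem_rst]
      exact ⟨fun h => ⟨hx, h⟩, fun h => h.2⟩

theorem lim_unbdd [IS S] (J : JP S) (U : Ultrafilter M)
    (hU1 : ∀ a : M, ∀ᶠ n in (U : Filter M), a ≤ n)
    (hU2 : ∀ f : M → M, Df S f → ∀ b, (∀ᶠ n in (U : Filter M), f n < b) →
        ∃ v, ∀ᶠ n in (U : Filter M), f n = v) {tn : M → M} (htn : Df S tn) (j : Bool)
    (h2 : ∀ n e, e < nB j (tn n) → J.Th e (n + 1) (nF j (tn n)) → Mem e (nD j (tn n)))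
    (h3 : ∀ n e, e < nB j (tn n) → J.Th e (n + 1) (ins n (nF j (tn n))) → Mem e (nD j (tn n)))
    (he : ∀ a : M, ∃ t, ∀ᶠ n in (U : Filter M), EarlyAt J tn j a t n) (a : M) :
    ∃ x ∈ limS U (fun n => nF j (tn n)), a ≤ x := by
  obtain ⟨t, ht⟩ := he (2 * a + 1 + 1)
  have hm : (2 * a + 1) ∈ limS U (fun n => nD j (tn n)) := by
    show ∀ᶠ n in (U : Filter M), Mem (2 * a + 1) (nD j (tn n))
    filter_upwards [ht, hU1 a] with n hn hn2
    refine h3 n _ (lt_of_lt_of_le (lt_succ_iff.2 le_rfl) hn.1) ?_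
    exact J.big a (n + 1) _ n (mem_ins.2 (Or.inl rfl)) hn2 (lt_succ_iff.2 le_rfl)
  obtain ⟨w, F, hF, hTh⟩ := (jump_iff J U hU1 hU2 htn j h2 he (2 * a + 1)).2 hm
  obtain ⟨x, hx, hax, hxw⟩ := J.big' a w F hTh
  exact ⟨x, (hF x hxw).1 hx, hax⟩

theorem lim_hom (U : Ultrafilter M) {c : M → M → Prop} {tn : M → M} (j : Bool)
    (h1 : ∀ n, Hom c j (nF j (tn n))) :
    ∀ x ∈ limS U (fun n => nF j (tn n)), ∀ y ∈ limS U (fun n => nF j (tn n)), x < y →
      col c j x y := by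
  intro x hx y hy hxy
  have hx' : ∀ᶠ n in (U : Filter M), Mem x (nF j (tn n)) := hx
  have hy' : ∀ᶠ n in (U : Filter M), Mem y (nF j (tn n)) := hy
  obtain ⟨n, hn, hn2⟩ := (hx'.and hy').exists
  exact h1 n x hn y hn2 hxy

end Pool.Agent.Work.MP_dfab40_lc.R
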