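import Pool.Agent.Work.MP_dfab40_lc.R.ApiA

/-!
# Module `Pig` (size S-M): the pigeonhole principle for `Δ_1` functions

PROOF.  Suppose not: for every `v < b` the set `{n | P n ∧ f n = v}` is bounded:
`∀ v < b, ∃ m, R v m` with `R v m := ∀ n, P n → f n = v → n < m`.  `¬ R` is `Σ_1`
(`∃ n, P n ∧ f n = v ∧ m ≤ n`), so by `BS2` there is `B` with `∀ v < b, ∃ m < B, R v m`; by
hypothesis there is `n ≥ B` with `P n`, `f n < b`; contradiction for `v = f n`.
-/

namespace Pool.Agent.Work.MP_dfab40_lc.R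

variable {M : Type} [PAm M] [ISig M] {S : Set (Set M)}

theorem pigeonhole (hB : BS2 S) {P : M → Prop} (hP : Dp S P) {f : M → M} (hf : Df S f) (b : M)
    (h : ∀ a, ∃ n, a ≤ n ∧ P n ∧ f n < b) : ∃ v, v < b ∧ ∀ a, ∃ n, a ≤ n ∧ P n ∧ f n = v := by
  by_contra hno
  have hR : S1 S (fun p : M × M => ¬ ∀ n, P n → f n = p.1 → n < p.2) := by
    have h1 : S1 S (fun p : M × M => ∃ n : M, (P n ∧ f n = p.1) ∧ p.2 ≤ n) := by
      refine S1.ex (A := M × M) (B := M) (P := fun p n => (P n ∧ f n = p.1) ∧ p.2 ≤ n) ?_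
      refine (Dp.and (Dp.and ?_ ?_) ?_).1
      · exact Dp.comp hP (Df.snd Df.id)
      · exact Dp.eq (Df.comp hf (Df.snd Df.id)) (Df.fst (Df.fst Df.id))
      · exact Dp.le (Df.snd (Df.fst Df.id)) (Df.snd Df.id)
    have h2 : (fun p : M × M => ¬ ∀ n, P n → f n = p.1 → n < p.2) =
        fun p : M × M => ∃ n : M, (P n ∧ f n = p.1) ∧ p.2 ≤ n := by
      funext p
      apply propext
      constructor
      · intro h3
        by_contra h4
        apply h3
        intro n hn1 hn2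
        by_contra h5
        exact h4 ⟨n, ⟨hn1, hn2⟩, not_lt.1 h5⟩
      · rintro ⟨n, ⟨hn1, hn2⟩, hn3⟩ h3
        exact absurd (h3 n hn1 hn2) (not_lt.2 hn3)
    rw [h2]
    exact h1
  obtain ⟨B, hBB⟩ := hB (fun v m => ∀ n, P n → f n = v → n < m) hR b (by
    intro v hv
    by_contra h1
    apply hno
    refine ⟨v, hv, fun a => ?_⟩
    by_contra h2
    apply h1
    refine ⟨a, fun n hn1 hn2 => ?_⟩
    by_contra h3
    exact h2 ⟨n, not_lt.1 h3, hn1, hn2⟩)
  obtain ⟨n, hn1, hn2, hn3⟩ := h B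
  obtain ⟨m, hm1, hm2⟩ := hBB (f n) hn3
  exact absurd (lt_of_lt_of_le (lt_trans (hm2 n hn2 rfl) hm1) hn1) (lt_irrefl n)

end Pool.Agent.Work.MP_dfab40_lc.R
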