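import Pool.Agent.Work.MP_dfab40_lc.R.D.Chain

/-!
# Module `Top` (size M): the top node

`C` a chain.  At stage `n + 1` let `top := C (n + 1) (n + 1)`, `Z` the least number with
`Cl J c top (n + 1) Z`, and `tn n := ap Z n` (the node of the last element `n`).

PROOF.  `tn` is `Df` by `Df.mu`, `Df.ap`, `hC.1`.  (1) `fs top ≤ n`: `fs q0 = 0`, otherwise
`top < n + 1`; so `tn n` is a member of `sn top` by `Cl` (first part) and `NodeOK` holds.
(2) second part of `Cl` with `G = 0`; `un F 0 = F` (`mem_ext`).  (3) second part with `G = pow2 n`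
(members: `x = n` only, `mem_ins` with `ins n 0 = un (pow2 n) 0`), `un F (pow2 n) = ins n F`.
(4) downward induction: for `k` with `i + k = n + 1` (`ind_Dp` on `k`): some member `v` of
`sn (C (n+1) i)` has `Ext (fs (C (n+1) i)) v (tn n)`; for `k = 0` take `v = tn n` (reflexive);
step: if `C (n+1) (i+1) = C (n+1) i` nothing changes, otherwise `Req` gives `v`, and `Ext` is
transitive for `fs q ≤ fs q'` (`Ext_trans`).
-/

namespace Pool.Agent.Work.MP_dfab40_lc.R

variable {M : Type} [PAm M] [ISig M] {S : Set (Set M)}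

theorem Ext_refl (s v : M) : Ext s v v := by
  intro j
  exact ⟨fun x _ => Iff.rfl, le_refl _, fun e _ => Iff.rfl⟩

theorem Ext_trans {s s' u v w : M} (h : Ext s u v) (h' : Ext s' v w) (hs : s ≤ s') :
    Ext s u w := by
  intro j
  obtain ⟨h1, h2, h3⟩ := h j
  obtain ⟨g1, g2, g3⟩ := h' j
  refine ⟨fun x hx => ?_, h2.trans g2, fun e he => ?_⟩
  · rw [g1 x (lt_of_lt_of_le hx hs), h1 x hx]
  · rw [g3 e (lt_of_lt_of_le he h2), h3 e he]

private theorem mem_pow2' {n y : M} : Mem y (pow2 n) ↔ y = n := by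
  have h1 : Mem y (ins n (0 : M)) ↔ y = n ∨ Mem y (0 : M) := mem_ins
  have h2 : Mem y (un (pow2 n) (0 : M)) ↔ Mem y (pow2 n) ∨ Mem y (0 : M) := mem_un
  have h3 : ¬ Mem y (0 : M) := not_mem_zero y
  have h4 : ins n (0 : M) = un (pow2 n) (0 : M) := rfl
  rw [h4] at h1
  constructor
  · intro h
    have h5 := h1.1 (h2.2 (Or.inl h))
    rcases h5 with h5 | h5
    · exact h5
    · exact absurd h5 h3
  · intro h
    have h5 := h2.1 (h1.2 (Or.inl h))
    rcases h5 with h5 | h5
    · exact h5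
    · exact absurd h5 h3

private theorem un_zero' (F : M) : un F (0 : M) = F := by
  apply mem_ext
  intro x
  rw [mem_un]
  constructor
  · rintro (h | h)
    · exact h
    · exact absurd h (not_mem_zero x)
  · intro h
    exact Or.inl h

private theorem un_pow2' (F n : M) : un F (pow2 n) = ins n F := by
  apply mem_ext
  intro x
  rw [mem_un, mem_ins, mem_pow2', or_comm]

private theorem Df.chain' {C : M → M → M} (h : Df S (fun p : M × M => C p.1 p.2)) {A : Type}
    [Cd M A] {f g : A → M} (hf : Df S f) (hg : Df S g) : Df S (fun a => C (f a) (g a)) :=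
  Df.comp (f := fun p : M × M => C p.1 p.2) (g := fun a => (f a, g a)) h (Df.pair hf hg)

theorem exists_top_node [IS S] (J : JP S) {c : M → M → Prop} (hc : Dp S (fun p : M × M => c p.1 p.2))
    {C : M → M → M} (hC : IsChain J c C) :
    ∃ tn : M → M, Df S tn ∧ ∀ n,
      (∀ j, ∀ x, Mem x (nF j (tn n)) → x < n) ∧
      (∀ j, Hom c j (nF j (tn n))) ∧
      (∀ j e, e < nB j (tn n) → J.Th e (n + 1) (nF j (tn n)) → Mem e (nD j (tn n))) ∧
      (∀ j e, e < nB j (tn n) → J.Th e (n + 1) (ins n (nF j (tn n))) → Mem e (nD j (tn n))) ∧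
      ∀ i, i ≤ n + 1 → ∃ v, Mem v (sn (C (n + 1) i)) ∧ Ext (fs (C (n + 1) i)) v (tn n) := by
  have hCd := hC.1
  have hsucc : ∀ {A : Type} [Cd M A] {f : A → M}, Df S f → Df S (fun a => f a + 1) :=
    fun hf => Df.add hf (Df.const 1)
  have hex : ∀ n : M, ∃ Z, Cl J c (C (n + 1) (n + 1)) (n + 1) Z := fun n =>
    (chain_vn J hc hC (n + 1) (n + 1)).2
  have hZd : Df S (fun n : M => mu (fun Z => Cl J c (C (n + 1) (n + 1)) (n + 1) Z)) := by
    refine Df.mu (P := fun (n : M) (Z : M) => Cl J c (C (n + 1) (n + 1)) (n + 1) Z) ?_ hex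
    have hf : Df S (fun p : M × M => p.1 + 1) := hsucc (Df.fst Df.id)
    exact Dp.cl J hc (Df.chain' hCd hf hf) hf (Df.snd Df.id)
  refine ⟨fun n => ap (mu (fun Z => Cl J c (C (n + 1) (n + 1)) (n + 1) Z)) n,
    Df.ap hZd Df.id, ?_⟩
  intro n
  have hCl : Cl J c (C (n + 1) (n + 1)) (n + 1)
      (mu (fun Z => Cl J c (C (n + 1) (n + 1)) (n + 1) Z)) := by
    refine mu_spec (S := S) (P := fun Z => Cl J c (C (n + 1) (n + 1)) (n + 1) Z) ?_ (hex n)
    exact Dp.cl J hc (Df.const _) (Df.const _) Df.id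
  beta_reduce
  generalize mu (fun Z => Cl J c (C (n + 1) (n + 1)) (n + 1) Z) = Z at hCl ⊢
  have hfs : fs (C (n + 1) (n + 1)) ≤ n := by
    rcases chain_lt J hC (n + 1) (n + 1) with h | h
    · exact (fs_le _).trans (lt_succ_iff.1 h)
    · rw [h]
      unfold q0
      rw [fs_pr]
      exact zero_le
  have hlt : n < n + 1 := lt_succ_iff.2 le_rfl
  obtain ⟨hmem, hcol⟩ := hCl.1 n hlt hfs
  have hOK := (chain_vn J hc hC (n + 1) (n + 1)).1 _ hmem
  refine ⟨?_, ?_, ?_, ?_, ?_⟩
  · intro j x hx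
    exact lt_of_lt_of_le ((hOK j).1 x hx) hfs
  · intro j
    exact (hOK j).2.1
  · intro j e he hT
    refine hCl.2 _ ⟨n, hlt, hfs, rfl⟩ j 0 (fun x hx => absurd hx (not_mem_zero x))
      (fun x hx => absurd hx (not_mem_zero x)) e he ?_
    rw [un_zero']
    exact hT
  · intro j e he hT
    refine hCl.2 _ ⟨n, hlt, hfs, rfl⟩ j (pow2 n) ?_ ?_ e he ?_
    · intro x hx
      rw [mem_pow2'] at hx
      subst hx
      exact ⟨hfs, hlt, rfl⟩
    · intro x hx y hy hxy
      rw [mem_pow2'] at hx hy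
      subst hx
      subst hy
      exact absurd hxy (lt_irrefl _)
    · rw [un_pow2']
      exact hT
  · have key : ∀ k : M, ∀ i, i < n + 1 + 1 → (i + k = n + 1 →
        ∃ v, Mem v (sn (C (n + 1) i)) ∧ Ext (fs (C (n + 1) i)) v (ap Z n)) := by
      intro k
      refine ind_Dp (S := S) (P := fun k : M => ∀ i, i < n + 1 + 1 → (i + k = n + 1 →
        ∃ v, Mem v (sn (C (n + 1) i)) ∧ Ext (fs (C (n + 1) i)) v (ap Z n))) ?_ ?_ ?_ k
      · refine Dp.ball (f := fun _ : M => n + 1 + 1) (P := fun (k : M) (i : M) =>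
          (i + k = n + 1 → ∃ v, Mem v (sn (C (n + 1) i)) ∧
            Ext (fs (C (n + 1) i)) v (ap Z n))) (Df.const _) ?_
        refine Dp.imp (Dp.eq (Df.add (Df.snd Df.id) (Df.fst Df.id)) (Df.const _)) ?_
        have hc1 : Df S (fun p : M × M => C (n + 1) p.2) :=
          Df.chain' hCd (Df.const _) (Df.snd Df.id)
        refine Dp.exMem (f := fun p : M × M => sn (C (n + 1) p.2))
          (P := fun (p : M × M) (v : M) => Ext (fs (C (n + 1) p.2)) v (ap Z n)) (Df.sn hc1) ?_
        have hc2 : Df S (fun p : (M × M) × M => C (n + 1) p.1.2) :=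
          Df.chain' hCd (Df.const _) (Df.snd (Df.fst Df.id))
        exact Dp.ext (Df.fs hc2) (Df.snd Df.id) (Df.const _)
      · intro i _ hi
        rw [add_zero] at hi
        subst hi
        exact ⟨_, hmem, Ext_refl _ _⟩
      · intro k ih i hi hik
        have h1 : i + 1 + k = n + 1 := by rw [← hik]; ring
        have h2 : i + 1 < n + 1 + 1 := by
          rw [lt_succ_iff, ← h1]
          exact le_self_add
        obtain ⟨v', hv', hE⟩ := ih (i + 1) h2 h1
        rcases hC.2.2 (n + 1) i with ⟨heq, _⟩ | ⟨hgood, _⟩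
        · rw [heq] at hv' hE
          exact ⟨v', hv', hE⟩
        · obtain ⟨_, _, hreq⟩ := hgood
          obtain ⟨_, hfs2, hall⟩ := hreq
          obtain ⟨⟨v, hv, hE2⟩, _⟩ := hall v' hv'
          exact ⟨v, hv, Ext_trans hE2 hE hfs2⟩
    intro i hi
    obtain ⟨k, hk⟩ := le_iff_exists_add.1 hi
    exact key k i (lt_succ_iff.2 hi) hk.symm

end Pool.Agent.Work.MP_dfab40_lc.R
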