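import Pool.Agent.Work.MP_dfab40_lc.R.D.Cnt
import Pool.Agent.Work.MP_dfab40_lc.R.D.Pig

/-!
# Module `Ult` (size M): the ultrafilter

PROOF.  Enumerate the pairs `(f, b)`, `f` a `Δ_1` function, `b : M` (`countable_Df`, `M` countable,
nonempty) as `k ↦ (f_k, b_k)`.  Build `P_0 ⊇ P_1 ⊇ ...` `Δ_1` and unbounded (recursion on `ℕ` over the
subtype of predicates which are `Dp S` and unbounded): `P_0 = True`; if `{n | P_k n ∧ f_k n < b_k}` is
unbounded take `v` from `pigeonhole` and `P_{k+1} n := P_k n ∧ f_k n = v`, otherwise `P_{k+1} := P_k`.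
The sets `{n | P_k n ∧ a ≤ n}` are nonempty and directed, so they generate a proper filter
(`Filter.generate`, `FilterBasis` or `⨅` of principal filters); let `U` be an ultrafilter below it
(`Ultrafilter.of`).  If `f = f_k` is eventually `< b = b_k` along `U`, then `{P_k ∧ f < b}` is
unbounded (otherwise it is disjoint from a `[a, ∞)`), so `P_{k+1}` gives the constant value.
-/

namespace Pool.Agent.Work.MP_dfab40_lc.R

variable {M : Type} [PAm M] [ISig M] {S : Set (Set M)}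

/-- unbounded `Δ_1` predicates -/
private abbrev UP (S : Set (Set M)) : Type :=
  {P : M → Prop // Dp S P ∧ ∀ a, ∃ n, a ≤ n ∧ P n}

private theorem step_exists (hB : BS2 S) (P : UP S) (f : {f : M → M // Df S f}) (b : M) :
    ∃ Q : UP S, (∀ n, Q.1 n → P.1 n) ∧
      ((∀ a, ∃ n, a ≤ n ∧ P.1 n ∧ f.1 n < b) → ∃ v, ∀ n, Q.1 n → f.1 n = v) := by
  by_cases h : ∀ a, ∃ n, a ≤ n ∧ P.1 n ∧ f.1 n < b
  · obtain ⟨v, -, hv⟩ := pigeonhole hB P.2.1 f.2 b h
    exact ⟨⟨fun n => P.1 n ∧ f.1 n = v, P.2.1.and (Dp.eq f.2 (Df.const v)), hv⟩,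
      fun n hn => hn.1, fun _ => ⟨v, fun n hn => hn.2⟩⟩
  · exact ⟨P, fun n hn => hn, fun h' => absurd h' h⟩

theorem exists_ult [Countable M] (hS : S.Countable) [IS S] (hB : BS2 S) :
    ∃ U : Ultrafilter M, (∀ a : M, ∀ᶠ n in (U : Filter M), a ≤ n) ∧
      ∀ f : M → M, Df S f → ∀ b, (∀ᶠ n in (U : Filter M), f n < b) →
        ∃ v, ∀ᶠ n in (U : Filter M), f n = v := by
  classical
  have hc : Countable {f : M → M // Df S f} := (countable_Df hS).to_subtype
  have hne : Nonempty ({f : M → M // Df S f} × M) := ⟨(⟨fun a => a, Df.id⟩, 0)⟩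
  obtain ⟨e, he⟩ := exists_surjective_nat ({f : M → M // Df S f} × M)
  choose nx hnx1 hnx2 using fun (P : UP S) (f : {f : M → M // Df S f}) (b : M) =>
    step_exists hB P f b
  have P0 : UP S := ⟨fun _ => True, Dp.const True, fun a => ⟨a, le_refl a, trivial⟩⟩
  let P : ℕ → UP S := fun k => Nat.rec P0 (fun k Q => nx Q (e k).1 (e k).2) k
  have hPs : ∀ k, P (k + 1) = nx (P k) (e k).1 (e k).2 := fun k => rfl
  have hmono : ∀ k n, (P (k + 1)).1 n → (P k).1 n := by
    intro k n h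
    rw [hPs] at h
    exact hnx1 _ _ _ n h
  have hmono' : ∀ k l, k ≤ l → ∀ n, (P l).1 n → (P k).1 n := by
    intro k l hkl
    induction hkl with
    | refl => exact fun n h => h
    | step _ ih => exact fun n h => ih n (hmono _ n h)
  let F : ℕ × M → Filter M := fun p => Filter.principal {n | (P p.1).1 n ∧ p.2 ≤ n}
  have hdir : Directed (· ≥ ·) F := by
    intro p q
    refine ⟨(max p.1 q.1, max p.2 q.2), ?_, ?_⟩
    · simp only [F, ge_iff_le, Filter.le_principal_iff, Filter.mem_principal]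
      intro n hn
      exact ⟨hmono' _ _ (le_max_left _ _) n hn.1, (le_max_left _ _).trans hn.2⟩
    · simp only [F, ge_iff_le, Filter.le_principal_iff, Filter.mem_principal]
      intro n hn
      exact ⟨hmono' _ _ (le_max_right _ _) n hn.1, (le_max_right _ _).trans hn.2⟩
  have hnb : ∀ p, (F p).NeBot := by
    intro p
    obtain ⟨n, hn1, hn2⟩ := (P p.1).2.2 p.2
    exact Filter.principal_neBot_iff.2 ⟨n, hn2, hn1⟩
  haveI : Nonempty (ℕ × M) := ⟨(0, 0)⟩
  haveI hl : (⨅ p, F p).NeBot := Filter.iInf_neBot_of_directed hdir hnb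
  have hU : ∀ k a, {n | (P k).1 n ∧ a ≤ n} ∈ ((Ultrafilter.of (⨅ p, F p) : Ultrafilter M) : Filter M) := by
    intro k a
    refine Ultrafilter.of_le _ ?_
    exact Filter.mem_iInf_of_mem (k, a) (Filter.mem_principal_self _)
  refine ⟨Ultrafilter.of (⨅ p, F p), ?_, ?_⟩
  · intro a
    filter_upwards [hU 0 a] with n hn using hn.2
  · intro f hf b hb
    obtain ⟨k, hk⟩ := he (⟨f, hf⟩, b)
    have h1 : ∀ a, ∃ n, a ≤ n ∧ (P k).1 n ∧ f n < b := by
      intro a
      obtain ⟨n, hn1, hn2⟩ := (hb.and (hU k a)).exists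
      exact ⟨n, hn2.2, hn2.1, hn1⟩
    have h2 := hnx2 (P k) (e k).1 (e k).2
    rw [← hPs, hk] at h2
    obtain ⟨v, hv⟩ := h2 h1
    refine ⟨v, ?_⟩
    filter_upwards [hU (k + 1) 0] with n hn using hv n hn.1

end Pool.Agent.Work.MP_dfab40_lc.R
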